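import Pool.Agent.H65.BHG.Defs

/-!
The combinatorial core: a family of nonnegative integer vectors covering a finite set.
-/

namespace Pool.Agent.H65.BHG

open Finset Submodule

/-- Rational version of a vector. -/
def qv {β : Type*} (C : β → ℕ) : β → ℚ := fun u => (C u : ℚ)

theorem qv_injective {β : Type*} : Function.Injective (qv : (β → ℕ) → (β → ℚ)) := by
  intro C C' h
  funext u
  have := congrFun h u
  simpa [qv] using this

/-- The span of the differences. -/
def dspan {β : Type*} (𝒞 : Finset (β → ℕ)) : Submodule ℚ (β → ℚ) :=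
  span ℚ {w | ∃ C ∈ 𝒞, ∃ C' ∈ 𝒞, w = qv C - qv C'}

theorem supp_card_le {β : Type*} [Fintype β] [DecidableEq β] (C : β → ℕ) :
    (univ.filter fun u => C u ≠ 0).card ≤ ∑ u, C u := by
  rw [card_filter]
  apply sum_le_sum
  intro u _
  split_ifs with h <;> omega

theorem card_le_of_cover {β : Type*} [Fintype β] [DecidableEq β] {T : Finset (β → ℚ)} {j : ℕ}
    (hT : ∀ B ∈ T, ∃ C : β → ℕ, B = qv C ∧ ∑ u, C u ≤ j) (P : Finset β)
    (hcov : ∀ u, u ∈ P ∨ ∃ B ∈ T, B u ≠ 0) :
    Fintype.card β ≤ P.card + j * T.card := by
  classical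
  have h1 : (univ : Finset β) ⊆ P ∪ T.biUnion (fun B => univ.filter fun u => B u ≠ 0) := by
    intro u _
    rw [mem_union, mem_biUnion]
    rcases hcov u with h | ⟨B, hB, hBu⟩
    · exact Or.inl h
    · exact Or.inr ⟨B, hB, by simpa using hBu⟩
  have h2 : (T.biUnion (fun B => univ.filter fun u => B u ≠ 0)).card ≤ T.card * j := by
    apply card_biUnion_le_card_mul
    intro B hB
    obtain ⟨C, rfl, hC⟩ := hT B hB
    refine le_trans (le_of_eq ?_) ((supp_card_le C).trans hC)
    congr 1
    ext u
    simp [qv]
  calc Fintype.card β = (univ : Finset β).card := rfl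
    _ ≤ _ := card_le_card h1
    _ ≤ _ := card_union_le _ _
    _ ≤ P.card + j * T.card := by rw [mul_comm j]; omega

/-- The core alternative. -/
theorem core {β : Type*} [Fintype β] [DecidableEq β] (𝒞 : Finset (β → ℕ)) (hne : 𝒞.Nonempty)
    (j : ℕ) (hj : ∀ C ∈ 𝒞, ∑ u, C u ≤ j) (hcov : ∀ u, ∃ C ∈ 𝒞, C u ≠ 0) :
    Fintype.card β ≤ j * Module.finrank ℚ (dspan 𝒞) ∨
      (LinearIndependent ℚ (fun C : 𝒞 => qv (C : β → ℕ)) ∧
        Module.finrank ℚ (dspan 𝒞) + 1 = 𝒞.card) := by
  classical
  set S : Finset (β → ℚ) := 𝒞.image qv with hS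
  obtain ⟨b, hbS, hbspan, hbli⟩ := exists_linearIndependent ℚ (S : Set (β → ℚ))
  obtain ⟨b, rfl⟩ := (S.finite_toSet.subset hbS).exists_finset_coe
  set L : Submodule ℚ (β → ℚ) := span ℚ (S : Set (β → ℚ)) with hL
  set W := dspan 𝒞 with hW
  have hrank : Module.finrank ℚ L = b.card := by
    rw [← hbspan]
    exact finrank_span_finset_eq_card hbli
  have hbC : ∀ B ∈ b, ∃ C : β → ℕ, B = qv C ∧ ∑ u, C u ≤ j := by
    intro B hB
    have := hbS hB
    rw [hS, coe_image] at this
    obtain ⟨C, hC, rfl⟩ := this
    exact ⟨C, rfl, hj C hC⟩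
  have hSL : ∀ C ∈ 𝒞, qv C ∈ L := fun C hC => subset_span (by
    rw [hS, coe_image]; exact ⟨C, hC, rfl⟩)
  have hbcov : ∀ u, ∃ B ∈ b, B u ≠ 0 := by
    intro u
    by_contra hcon
    push Not at hcon
    have h1 : L ≤ LinearMap.ker (LinearMap.proj u : (β → ℚ) →ₗ[ℚ] ℚ) := by
      rw [← hbspan, span_le]
      intro B hB
      exact hcon B hB
    obtain ⟨C, hC, hCu⟩ := hcov u
    have h2 : qv C u = 0 := h1 (hSL C hC)
    simp [qv] at h2
    exact hCu h2
  have hWL : W ≤ L := by
    rw [hW, dspan, span_le]
    rintro _ ⟨C, hC, C', hC', rfl⟩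
    exact L.sub_mem (hSL C hC) (hSL C' hC')
  have hWmem : ∀ C ∈ 𝒞, ∀ C' ∈ 𝒞, qv C - qv C' ∈ W := fun C hC C' hC' =>
    subset_span ⟨C, hC, C', hC', rfl⟩
  obtain ⟨C0, hC0⟩ := hne
  by_cases h0 : qv C0 ∈ W
  · -- full rank
    left
    have hLW : L ≤ W := by
      rw [hL, span_le, hS, coe_image]
      rintro _ ⟨C, hC, rfl⟩
      have := W.add_mem h0 (hWmem C hC C0 hC0)
      simpa using this
    have h1 : b.card ≤ Module.finrank ℚ W := by
      rw [← hrank]; exact Submodule.finrank_mono hLW
    have h2 := card_le_of_cover hbC ∅ (fun u => Or.inr (hbcov u))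
    calc Fintype.card β ≤ (∅ : Finset β).card + j * b.card := h2
      _ = j * b.card := by simp
      _ ≤ _ := Nat.mul_le_mul_left _ h1
  · obtain ⟨f, hf0, hfW⟩ := exists_le_ker_of_notMem h0
    have hfC : ∀ C ∈ 𝒞, f (qv C) = f (qv C0) := by
      intro C hC
      have := hfW (hWmem C hC C0 hC0)
      rw [LinearMap.mem_ker, map_sub, sub_eq_zero] at this
      exact this
    have hfb : ∀ B ∈ b, f B = f (qv C0) := by
      intro B hB
      have := hbS hB
      rw [hS, coe_image] at this
      obtain ⟨C, hC, rfl⟩ := this
      exact hfC C hC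
    have hlt : Module.finrank ℚ W < Module.finrank ℚ L := by
      apply Submodule.finrank_lt_finrank_of_lt
      refine lt_of_le_of_ne hWL ?_
      intro heq
      exact h0 (by rw [heq]; exact hSL C0 hC0)
    have hge : Module.finrank ℚ L ≤ Module.finrank ℚ W + 1 := by
      have h1 : L ≤ W ⊔ span ℚ {qv C0} := by
        rw [hL, span_le, hS, coe_image]
        rintro _ ⟨C, hC, rfl⟩
        have := (W ⊔ span ℚ {qv C0}).add_mem (mem_sup_left (hWmem C hC C0 hC0))
          (mem_sup_right (mem_span_singleton_self (qv C0)))
        simpa using this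
      have h2 := Submodule.finrank_mono h1
      have h3 := Submodule.finrank_add_le_finrank_add_finrank W (span ℚ {qv C0})
      have h4 : Module.finrank ℚ (span ℚ {qv C0}) ≤ 1 := by
        have := finrank_span_le_card (R := ℚ) ({qv C0} : Set (β → ℚ))
        simpa using this
      omega
    have hWr : Module.finrank ℚ W + 1 = b.card := by omega
    by_cases hall : ∀ C ∈ 𝒞, qv C ∈ b
    · right
      have hbeq : b = S := by
        apply le_antisymm
        · intro B hB; exact_mod_cast hbS hB
        · intro B hB
          rw [hS, mem_image] at hB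
          obtain ⟨C, hC, rfl⟩ := hB
          exact hall C hC
      constructor
      · have := hbli.comp (fun C : 𝒞 => ⟨qv (C : β → ℕ), hall C C.2⟩) (by
          intro C C' h
          have := congrArg Subtype.val h
          exact Subtype.ext (qv_injective this))
        exact this
      · rw [hWr, hbeq, hS, card_image_of_injective _ qv_injective]
    · left
      push Not at hall
      obtain ⟨C, hC, hCb⟩ := hall
      have hCL : qv C ∈ span ℚ (b : Set (β → ℚ)) := by rw [hbspan]; exact hSL C hC
      obtain ⟨l, -, hl⟩ := mem_span_finset.1 hCL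
      have hsum : ∑ B ∈ b, l B = 1 := by
        have h1 : f (qv C) = ∑ B ∈ b, l B * f B := by
          rw [← hl, map_sum]
          simp
        rw [hfC C hC, sum_congr rfl (fun B hB => by rw [hfb B hB]), ← sum_mul] at h1
        have h2 : (∑ B ∈ b, l B - 1) * f (qv C0) = 0 := by linarith
        rcases mul_eq_zero.1 h2 with h | h
        · linarith
        · exact absurd h hf0
      have hval : ∀ u, (C u : ℚ) = ∑ B ∈ b, l B * B u := by
        intro u
        have := congrFun hl u
        simp only [Finset.sum_apply, Pi.smul_apply, smul_eq_mul] at this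
        rw [this]; rfl
      have hBnn : ∀ B ∈ b, ∀ u, 0 ≤ B u := by
        intro B hB u
        obtain ⟨C', rfl, -⟩ := hbC B hB
        simp [qv]
      by_cases hneg : ∃ B ∈ b, l B < 0
      · obtain ⟨B, hB, hlB⟩ := hneg
        have h2 := card_le_of_cover (T := b.erase B) (j := j)
          (fun B' hB' => hbC B' (mem_of_mem_erase hB')) ∅ (by
          intro u
          right
          by_contra hcon
          push Not at hcon
          obtain ⟨B', hB', hB'u⟩ := hbcov u
          have hBB' : B' = B := by
            by_contra hne'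
            exact hB'u (hcon B' (mem_erase.2 ⟨hne', hB'⟩))
          subst hBB'
          have h3 : (C u : ℚ) = l B' * B' u := by
            rw [hval u]
            apply sum_eq_single_of_mem B' hB'
            intro B'' hB'' hne''
            rw [hcon B'' (mem_erase.2 ⟨hne'', hB''⟩), mul_zero]
          have h4 : 0 < B' u := lt_of_le_of_ne (hBnn B' hB' u) (Ne.symm hB'u)
          have h5 : (0 : ℚ) ≤ C u := by positivity
          nlinarith)
        have h3 : (b.erase B).card = Module.finrank ℚ W := by
          rw [card_erase_of_mem hB]; omega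
        rw [h3] at h2
        simpa using h2
      · push Not at hneg
        -- two positive coefficients
        obtain ⟨B1, hB1, hl1⟩ : ∃ B ∈ b, 0 < l B := by
          by_contra hcon
          push Not at hcon
          have : ∑ B ∈ b, l B ≤ 0 := sum_nonpos hcon
          linarith
        obtain ⟨B2, hB2, hl2⟩ : ∃ B ∈ b.erase B1, 0 < l B := by
          by_contra hcon
          push Not at hcon
          have hz : ∀ B ∈ b.erase B1, l B = 0 := fun B hB =>
            le_antisymm (hcon B hB) (hneg B (mem_of_mem_erase hB))
          have h1 : l B1 = 1 := by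
            rw [← hsum, ← add_sum_erase b l hB1, sum_eq_zero hz, add_zero]
          apply hCb
          have h2 : qv C = B1 := by
            rw [← hl, ← add_sum_erase b (fun a => l a • a) hB1,
              sum_eq_zero (fun B hB => by rw [hz B hB, zero_smul]), h1]
            simp
          rw [h2]; exact hB1
        have h2 := card_le_of_cover (T := (b.erase B1).erase B2) (j := j)
          (fun B' hB' => hbC B' (mem_of_mem_erase (mem_of_mem_erase hB')))
          (univ.filter fun u => C u ≠ 0) (by
          intro u
          obtain ⟨B, hB, hBu⟩ := hbcov u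
          have hpos : 0 < B u := lt_of_le_of_ne (hBnn B hB u) (Ne.symm hBu)
          have hkey : 0 < l B → u ∈ univ.filter fun u => C u ≠ 0 := by
            intro hlB
            simp only [mem_filter, mem_univ, true_and]
            intro h0
            have h3 := hval u
            rw [h0] at h3
            have h4 : 0 < ∑ B ∈ b, l B * B u := by
              apply sum_pos' (fun B' hB' => mul_nonneg (hneg B' hB') (hBnn B' hB' u))
              exact ⟨B, hB, mul_pos hlB hpos⟩
            rw [← h3] at h4
            simp at h4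
          by_cases hb1 : B = B1
          · left; apply hkey; rw [hb1]; exact hl1
          · by_cases hb2 : B = B2
            · left; apply hkey; rw [hb2]; exact hl2
            · right
              exact ⟨B, mem_erase.2 ⟨hb2, mem_erase.2 ⟨hb1, hB⟩⟩, hBu⟩)
        have h3 : ((b.erase B1).erase B2).card + 1 = Module.finrank ℚ W := by
          have h4 : (b.erase B1).card = b.card - 1 := card_erase_of_mem hB1
          have h5 : ((b.erase B1).erase B2).card = (b.erase B1).card - 1 := card_erase_of_mem hB2
          have h6 : 0 < (b.erase B1).card := card_pos.2 ⟨B2, hB2⟩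
          omega
        have h7 : (univ.filter fun u => C u ≠ 0).card ≤ j := (supp_card_le C).trans (hj C hC)
        calc Fintype.card β ≤ _ := h2
          _ ≤ j + j * ((b.erase B1).erase B2).card := by omega
          _ = j * (((b.erase B1).erase B2).card + 1) := by ring
          _ = _ := by rw [h3]

end Pool.Agent.H65.BHG
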