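import Mathlib

/-!
Weighted sums over increasing tuples with determined coordinates.
-/

namespace Pool.Agent.H65.BHG

open Finset
open scoped ENNReal

theorem rpow_step {ε : ℝ} (hε : 0 < ε) {x : ℝ} (hx : 1 < x) :
    x ^ (-1 - ε) ≤ ε⁻¹ * (x - 1) ^ (-ε) - ε⁻¹ * x ^ (-ε) := by
  have hx0 : 0 < x := by linarith
  have hx1 : 0 < x - 1 := by linarith
  have h1 : (x - 1) ^ (-ε) = x ^ (-ε) * (1 - 1 / x) ^ (-ε) := by
    rw [← Real.mul_rpow hx0.le (by rw [sub_nonneg, div_le_one hx0]; exact hx.le)]
    congr 1
    field_simp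
  have h2 : 1 + ε / x ≤ (1 - 1 / x) ^ (-ε) := by
    have hp : 0 < 1 - 1 / x := by rw [sub_pos, div_lt_one hx0]; exact hx
    rw [Real.rpow_def_of_pos hp]
    have h3 := Real.add_one_le_exp (Real.log (1 - 1 / x) * (-ε))
    have h4 := Real.log_le_sub_one_of_pos hp
    have h5 : ε / x = (1 / x) * ε := by ring
    have h6 : (1 / x) * ε ≤ Real.log (1 - 1 / x) * (-ε) := by nlinarith
    linarith
  have h3 : x ^ (-1 - ε) = x ^ (-ε) * x⁻¹ := by
    rw [show -1 - ε = -ε + -1 by ring, Real.rpow_add hx0, Real.rpow_neg_one]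
  have h4 : 0 < x ^ (-ε) := Real.rpow_pos_of_pos hx0 _
  rw [h1, h3]
  have h5 : x ^ (-ε) * (1 + ε / x) ≤ x ^ (-ε) * (1 - 1 / x) ^ (-ε) :=
    mul_le_mul_of_nonneg_left h2 h4.le
  have h6 : ε⁻¹ * (x ^ (-ε) * (1 + ε / x)) ≤ ε⁻¹ * (x ^ (-ε) * (1 - 1 / x) ^ (-ε)) :=
    mul_le_mul_of_nonneg_left h5 (by positivity)
  have h7 : ε⁻¹ * (x ^ (-ε) * (1 + ε / x)) = ε⁻¹ * x ^ (-ε) + x ^ (-ε) * x⁻¹ := by
    field_simp
  linarith

theorem tail_sum_real {ε : ℝ} (hε : 0 < ε) {y : ℕ} (hy : 1 ≤ y) (n : ℕ) :
    ∑ x ∈ range n, (if y < x then (x : ℝ) ^ (-1 - ε) else 0) ≤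
      ε⁻¹ * (y : ℝ) ^ (-ε) - ε⁻¹ * ((max y (n - 1) : ℕ) : ℝ) ^ (-ε) := by
  induction n with
  | zero => simp
  | succ n ih =>
    rw [sum_range_succ]
    split_ifs with h
    · have h1 : max y (n - 1) = n - 1 := by omega
      have h2 : max y (n + 1 - 1) = n := by omega
      rw [h1] at ih
      rw [h2]
      have h3 := rpow_step hε (x := n) (by exact_mod_cast (by omega : 1 < n))
      have h4 : ((n - 1 : ℕ) : ℝ) = (n : ℝ) - 1 := by
        rw [Nat.cast_sub (by omega)]; simp
      rw [h4] at ih
      linarith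
    · have h1 : max y (n - 1) = y := by omega
      have h2 : max y (n + 1 - 1) = y := by omega
      rw [h1] at ih
      rw [h2]
      linarith

theorem tail_sum {ε : ℝ} (hε : 0 < ε) {y : ℕ} (hy : 1 ≤ y) :
    ∑' x : ℕ, (if y < x then ENNReal.ofReal ((x : ℝ) ^ (-1 - ε)) else 0) ≤
      ENNReal.ofReal (ε⁻¹ * (y : ℝ) ^ (-ε)) := by
  rw [ENNReal.tsum_eq_iSup_nat]
  apply iSup_le
  intro n
  have h1 : ∑ x ∈ range n, (if y < x then ENNReal.ofReal ((x : ℝ) ^ (-1 - ε)) else 0) =
      ENNReal.ofReal (∑ x ∈ range n, (if y < x then (x : ℝ) ^ (-1 - ε) else 0)) := by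
    rw [ENNReal.ofReal_sum_of_nonneg]
    · apply sum_congr rfl
      intro x _
      split_ifs
      · rfl
      · simp
    · intro x _
      split_ifs
      · positivity
      · exact le_rfl
  rw [h1]
  apply ENNReal.ofReal_le_ofReal
  have h2 := tail_sum_real hε hy n
  have h3 : 0 ≤ ε⁻¹ * ((max y (n - 1) : ℕ) : ℝ) ^ (-ε) := by positivity
  linarith

/-- The counting lemma. -/
theorem count {γ : ℝ} {w : ℕ → ℝ≥0∞}
    (hw : ∀ x, 1 ≤ x → w x ≤ ENNReal.ofReal (2 * (x : ℝ) ^ (γ - 1))) (e : ℕ) :
    ∀ piv : Finset (Fin e),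
      (∀ m : Fin e, γ * ((e : ℝ) - m) < (piv.filter (m ≤ ·)).card) →
    ∃ C : ℝ, 0 ≤ C ∧ ∀ y : ℕ, 1 ≤ y → ∀ S : Set (Fin e → ℕ), (∀ a ∈ S, StrictMono a) →
      (∀ a ∈ S, ∀ l, y < a l) →
      (∀ l ∈ piv, ∀ a ∈ S, ∀ a' ∈ S, (∀ i < l, a i = a' i) → a l = a' l) →
      ∑' a : Fin e → ℕ, S.indicator (fun a => ∏ l, w (a l)) a ≤
        ENNReal.ofReal (C * (y : ℝ) ^ (γ * e - piv.card)) := by
  classical
  induction e with
  | zero =>
    intro piv _
    refine ⟨1, zero_le_one, fun y _ S _ _ _ => ?_⟩
    have hp : piv = ∅ := by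
      ext l; exact l.elim0
    rw [hp, tsum_eq_single (fun i : Fin 0 => (i.elim0 : ℕ))
      (fun b hb => absurd (funext fun i : Fin 0 => i.elim0) hb)]
    refine (Set.indicator_le_self _ _ _).trans ?_
    simp
  | succ e ih =>
    intro piv hpiv
    set piv' : Finset (Fin e) := univ.filter fun l => l.succ ∈ piv with hpiv'
    have hcard' : ∀ m : Fin e, (piv'.filter (m ≤ ·)).card = (piv.filter (m.succ ≤ ·)).card := by
      intro m
      have : piv.filter (m.succ ≤ ·) = (piv'.filter (m ≤ ·)).map (Fin.succEmb e) := by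
        ext l
        simp only [mem_filter, mem_map, hpiv', mem_univ, true_and, Fin.coe_succEmb]
        constructor
        · rintro ⟨h1, h2⟩
          have hl : l ≠ 0 := by
            rintro rfl
            exact absurd h2 (by simp)
          obtain ⟨l', rfl⟩ := Fin.exists_succ_eq.2 hl
          exact ⟨l', ⟨h1, by simpa using h2⟩, rfl⟩
        · rintro ⟨l', ⟨h1, h2⟩, rfl⟩
          exact ⟨h1, by simpa using h2⟩
      rw [this, card_map]
    obtain ⟨C', hC'0, hC'⟩ := ih piv' (by
      intro m
      have := hpiv m.succ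
      rw [hcard']
      simpa using this)
    set E' : ℝ := γ * e - piv'.card with hE'
    set E : ℝ := γ * (e + 1 : ℕ) - piv.card with hE
    have hEneg : E < 0 := by
      have := hpiv 0
      rw [filter_true_of_mem (fun l _ => Fin.zero_le l)] at this
      simp only [Fin.val_zero, Nat.cast_zero, sub_zero] at this
      rw [hE]
      linarith
    -- inner bound
    have hinner : ∀ y : ℕ, 1 ≤ y → ∀ S : Set (Fin (e + 1) → ℕ), (∀ a ∈ S, StrictMono a) →
        (∀ a ∈ S, ∀ l, y < a l) →
        (∀ l ∈ piv, ∀ a ∈ S, ∀ a' ∈ S, (∀ i < l, a i = a' i) → a l = a' l) →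
        ∑' a : Fin (e + 1) → ℕ, S.indicator (fun a => ∏ l, w (a l)) a ≤
          ∑' x : ℕ, (if ∃ a ∈ S, a 0 = x then
            ENNReal.ofReal (2 * C' * (x : ℝ) ^ (γ - 1 + E')) else 0) := by
      intro y hy S hmono hyS hdet
      rw [← Equiv.tsum_eq (Fin.consEquiv fun _ : Fin (e + 1) => ℕ)]
      have h1 : ∑' c : ℕ × (Fin e → ℕ), S.indicator (fun a => ∏ l, w (a l))
          ((Fin.consEquiv fun _ : Fin (e + 1) => ℕ) c) =
          ∑' (x : ℕ) (b : Fin e → ℕ), S.indicator (fun a => ∏ l, w (a l))
            (Fin.cons x b : Fin (e + 1) → ℕ) :=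
        ENNReal.tsum_prod (f := fun (x : ℕ) (b : Fin e → ℕ) =>
          S.indicator (fun a => ∏ l, w (a l)) (Fin.cons x b : Fin (e + 1) → ℕ))
      refine le_trans (le_of_eq h1) ?_
      apply ENNReal.tsum_le_tsum
      intro x
      set T : Set (Fin e → ℕ) := {b | (Fin.cons x b : Fin (e + 1) → ℕ) ∈ S} with hT
      split_ifs with hx
      · obtain ⟨a0, ha0, ha0x⟩ := hx
        have hxy : y < x := by rw [← ha0x]; exact hyS a0 ha0 0
        have hx1 : 1 ≤ x := by omega
        have h2 : ∀ b : Fin e → ℕ, S.indicator (fun a => ∏ l, w (a l))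
            (Fin.cons x b : Fin (e + 1) → ℕ) = w x * T.indicator (fun b => ∏ l, w (b l)) b := by
          intro b
          by_cases hb : (Fin.cons x b : Fin (e + 1) → ℕ) ∈ S
          · rw [Set.indicator_of_mem hb, Set.indicator_of_mem (show b ∈ T from hb),
              Fin.prod_univ_succ]
            simp
          · rw [Set.indicator_of_notMem hb, Set.indicator_of_notMem (show b ∉ T from hb),
              mul_zero]
        simp_rw [h2]
        rw [ENNReal.tsum_mul_left]
        have h3 := hC' x hx1 T (by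
          intro b hb
          have h4 := hmono _ hb
          intro i j hij
          have := h4 (show i.succ < j.succ by simpa using hij)
          simpa using this) (by
          intro b hb l
          have h4 := hmono _ hb
          have := h4 (show (0 : Fin (e + 1)) < l.succ from Fin.succ_pos l)
          simpa using this) (by
          intro l hl b hb b' hb' hbb'
          have h4 := hdet l.succ (by simpa [hpiv'] using hl) _ hb _ hb' (by
            intro i
            refine Fin.cases (fun _ => by simp) (fun i hi => ?_) i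
            simp only [Fin.cons_succ]
            exact hbb' i (by simpa using hi))
          simpa using h4)
        calc w x * ∑' b : Fin e → ℕ, T.indicator (fun b => ∏ l, w (b l)) b
            ≤ ENNReal.ofReal (2 * (x : ℝ) ^ (γ - 1)) * ENNReal.ofReal (C' * (x : ℝ) ^ E') :=
              mul_le_mul' (hw x hx1) h3
          _ = ENNReal.ofReal (2 * C' * (x : ℝ) ^ (γ - 1 + E')) := by
              rw [← ENNReal.ofReal_mul (by positivity)]
              congr 1
              have hx0 : (0 : ℝ) < x := by exact_mod_cast hx1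
              rw [Real.rpow_add hx0]
              ring
      · apply le_of_eq
        rw [ENNReal.tsum_eq_zero]
        intro b
        apply Set.indicator_of_notMem
        intro hb
        exact hx ⟨_, hb, by simp⟩
    by_cases h0 : (0 : Fin (e + 1)) ∈ piv
    · -- the first coordinate is determined
      have hc : piv.card = piv'.card + 1 := by
        have h1 : piv = insert 0 (piv'.map (Fin.succEmb e)) := by
          ext l
          simp only [mem_insert, mem_map, hpiv', mem_filter, mem_univ, true_and, Fin.coe_succEmb]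
          constructor
          · intro hl
            by_cases h : l = 0
            · exact Or.inl h
            · obtain ⟨l', rfl⟩ := Fin.exists_succ_eq.2 h
              exact Or.inr ⟨l', hl, rfl⟩
          · rintro (rfl | ⟨l', hl', rfl⟩)
            · exact h0
            · exact hl'
        rw [h1, card_insert_of_notMem, card_map]
        simp
      have hEE : γ - 1 + E' = E := by
        rw [hE, hE', hc]; push_cast; ring
      refine ⟨2 * C', by positivity, fun y hy S hmono hyS hdet => ?_⟩
      refine (hinner y hy S hmono hyS hdet).trans ?_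
      rw [hEE]
      by_cases hS : ∃ a, a ∈ S
      · obtain ⟨a0, ha0⟩ := hS
        rw [tsum_eq_single (a0 0)]
        · rw [if_pos ⟨a0, ha0, rfl⟩]
          apply ENNReal.ofReal_le_ofReal
          apply mul_le_mul_of_nonneg_left _ (by positivity)
          apply Real.rpow_le_rpow_of_nonpos (by exact_mod_cast hy) _ hEneg.le
          exact_mod_cast (hyS a0 ha0 0).le
        · intro x hx
          rw [if_neg]
          rintro ⟨a, ha, rfl⟩
          apply hx
          exact hdet 0 h0 a ha a0 ha0 (fun i hi => absurd hi (by simp))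
      · have : ∀ x : ℕ, (if ∃ a ∈ S, a 0 = x then
            ENNReal.ofReal (2 * C' * (x : ℝ) ^ E) else 0) = 0 := by
          intro x
          rw [if_neg]
          rintro ⟨a, ha, -⟩
          exact hS ⟨a, ha⟩
        simp_rw [this]
        simp
    · have hc : piv.card = piv'.card := by
        have h1 : piv = piv'.map (Fin.succEmb e) := by
          ext l
          simp only [mem_map, hpiv', mem_filter, mem_univ, true_and, Fin.coe_succEmb]
          constructor
          · intro hl
            have h : l ≠ 0 := by rintro rfl; exact h0 hl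
            obtain ⟨l', rfl⟩ := Fin.exists_succ_eq.2 h
            exact ⟨l', hl, rfl⟩
          · rintro ⟨l', hl', rfl⟩
            exact hl'
        rw [h1, card_map]
      have hEE : γ - 1 + E' = -1 - (-E) := by
        rw [hE, hE', hc]; push_cast; ring
      refine ⟨2 * C' * (-E)⁻¹, by
        have : 0 < -E := by linarith
        positivity, fun y hy S hmono hyS hdet => ?_⟩
      refine (hinner y hy S hmono hyS hdet).trans ?_
      rw [hEE]
      calc ∑' x : ℕ, (if ∃ a ∈ S, a 0 = x then
            ENNReal.ofReal (2 * C' * (x : ℝ) ^ (-1 - (-E))) else 0)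
          ≤ ∑' x : ℕ, ENNReal.ofReal (2 * C') *
              (if y < x then ENNReal.ofReal ((x : ℝ) ^ (-1 - (-E))) else 0) := by
            apply ENNReal.tsum_le_tsum
            intro x
            split_ifs with h1 h2 h2
            · rw [← ENNReal.ofReal_mul (by positivity)]
            · obtain ⟨a, ha, rfl⟩ := h1
              exact absurd (hyS a ha 0) h2
            · exact zero_le
            · simp
        _ ≤ ENNReal.ofReal (2 * C') * ENNReal.ofReal ((-E)⁻¹ * (y : ℝ) ^ (-(-E))) := by
            rw [ENNReal.tsum_mul_left]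
            gcongr
            exact tail_sum (by linarith) hy
        _ = _ := by
            rw [← ENNReal.ofReal_mul (by positivity), neg_neg]
            congr 1
            ring

end Pool.Agent.H65.BHG
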