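import Mathlib

/-!
Common definitions for the bound on the least multiplicity of a `B_h[g]` basis of order `h+1`.
-/

namespace Pool.Agent.H65.BHG

open Finset MeasureTheory

noncomputable section

/-- The representations of `n` as a sum of `k` elements of `A`, as multisets. -/
def reps (A : Set ℕ) (k n : ℕ) : Set (Multiset ℕ) :=
  {m | m.card = k ∧ m.sum = n ∧ ∀ a ∈ m, a ∈ A}

/-- The vector of multiplicities of a multiset. -/
def cv (m : Multiset ℕ) : ℕ → ℚ := fun a => (m.count a : ℚ)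

/-- Restriction of functions to a finite set. -/
def rs (U : Finset ℕ) : (ℕ → ℚ) →ₗ[ℚ] (U → ℚ) :=
  LinearMap.funLeft ℚ ℚ (fun u : U => (u : ℕ))

/-- Rank on `U` of a space of functions. -/
def rk (V : Submodule ℚ (ℕ → ℚ)) (U : Finset ℕ) : ℕ := Module.finrank ℚ (V.map (rs U))

/-- The integer relations on `E` with coefficients bounded by `H`. -/
def rel (H : ℕ) (E : Finset ℕ) : Set (ℕ → ℚ) :=
  {v | ∃ c : ℕ → ℤ, (∀ a, |c a| ≤ H) ∧ (∀ a, a ∉ E → c a = 0) ∧
    (∑ a ∈ E, c a * (a : ℤ) = 0) ∧ v = fun a => (c a : ℚ)}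

/-- The upper part of `E` from `y` on. -/
def up (E : Finset ℕ) (y : ℕ) : Finset ℕ := E.filter (y ≤ ·)

/-- Every small finite subset of `A` has a nonempty upper part on which the bounded relations
have small rank. -/
def QProp (γ : ℝ) (H K : ℕ) (A : Set ℕ) : Prop :=
  ∀ E : Finset ℕ, E.Nonempty → (∀ a ∈ E, a ∈ A) → E.card ≤ K →
    ∃ y : ℕ, (up E y).Nonempty ∧
      (rk (Submodule.span ℚ (rel H E)) (up E y) : ℝ) ≤ γ * (up E y).card

end

end Pool.Agent.H65.BHG
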