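import Pool.Agent.H65.BHG.Kj

/-!
Few representations meet the deleted elements.
-/

namespace Pool.Agent.H65.BHG

open Finset Submodule

theorem rk_Df_add_one_le (𝒮 : Finset (Multiset ℕ)) (hne : 𝒮.Nonempty) (U : Finset ℕ) :
    rk (Df 𝒮) U + 1 ≤ 𝒮.card := by
  classical
  obtain ⟨R0, hR0⟩ := hne
  have h1 : Df 𝒮 ≤ span ℚ (((𝒮.erase R0).image fun R => cv R - cv R0 : Finset (ℕ → ℚ)) :
      Set (ℕ → ℚ)) := by
    unfold Df
    rw [span_le]
    rintro _ ⟨R, hR, R', hR', rfl⟩
    have key : ∀ R ∈ 𝒮, cv R - cv R0 ∈ span ℚ (((𝒮.erase R0).image fun R => cv R - cv R0 :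
        Finset (ℕ → ℚ)) : Set (ℕ → ℚ)) := by
      intro R hR
      by_cases h : R = R0
      · rw [h, sub_self]; exact zero_mem _
      · apply subset_span
        rw [coe_image]
        exact ⟨R, mem_coe.2 (mem_erase.2 ⟨h, hR⟩), rfl⟩
    have : cv R - cv R' = (cv R - cv R0) - (cv R' - cv R0) := by abel
    rw [this]
    exact sub_mem (key R hR) (key R' hR')
  have h2 : rk (Df 𝒮) U ≤ (𝒮.erase R0).card := by
    calc rk (Df 𝒮) U ≤ _ := rk_mono h1 U
      _ = Module.finrank ℚ (span ℚ ((((𝒮.erase R0).image fun R => cv R - cv R0).image (rs U) :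
          Finset (U → ℚ)) : Set (U → ℚ))) := by
          unfold rk
          rw [map_span, coe_image (f := rs U)]
      _ ≤ _ := finrank_span_finset_le_card _
      _ ≤ _ := card_image_le
      _ ≤ _ := card_image_le
  have h3 : (𝒮.erase R0).card = 𝒮.card - 1 := card_erase_of_mem hR0
  have h4 : 0 < 𝒮.card := card_pos.2 ⟨R0, hR0⟩
  omega

theorem rk_mono_set (V : Submodule ℚ (ℕ → ℚ)) {U U' : Finset ℕ} (h : U ⊆ U') :
    rk V U ≤ rk V U' := by
  have := rk_union (V := V) (V' := ⊥) (V'' := V) bot_le le_rfl (U' := U') (U'' := U) (by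
    intro v hv u _
    rw [mem_bot] at hv
    rw [hv]; rfl)
  rw [union_eq_left.2 h] at this
  omega

/-- Adding a vector that does not lie in the space raises the rank. -/
theorem rk_sup_singleton {V : Submodule ℚ (ℕ → ℚ)} {p : ℕ → ℚ} {U : Finset ℕ}
    (hp : rs U p ∉ V.map (rs U)) : rk V U + 1 ≤ rk (V ⊔ span ℚ {p}) U := by
  unfold rk
  rw [Nat.succ_le_iff]
  apply Submodule.finrank_lt_finrank_of_lt
  refine lt_of_le_of_ne (map_mono le_sup_left) ?_
  intro heq
  apply hp
  rw [heq]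
  exact ⟨p, mem_sup_right (mem_span_singleton_self p), rfl⟩

/-- The key inequality for a representation meeting a deleted element. -/
theorem KC {A : Set ℕ} {γ δ : ℝ} {h n : ℕ} (hh : 1 ≤ h) (hδ0 : 0 < δ)
    (hδ : δ * (2 * h * (h + 2)) ≤ 1) (hγ : γ * (h + 1) = 1 + δ)
    {𝒮 : Finset (Multiset ℕ)} (h𝒮 : ∀ R ∈ 𝒮, R ∈ reps A h n) (hcard : 𝒮.card = h + 1)
    (hK : ∀ i ≤ h, KP A γ i) {P : Multiset ℕ} (hP : P.card = h + 1) {d : ℕ} (hdP : d ∈ P)
    (hd : d ∈ supp 𝒮) {U : Finset ℕ} (hU : U.Nonempty) (hUS : U ⊆ P.toFinset ∪ supp 𝒮) :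
    γ * U.card + 1 / (2 * (h + 1)) ≤ rk (Df 𝒮 ⊔ span ℚ {cv P}) U := by
  classical
  have hh0 : (0 : ℝ) < h := by exact_mod_cast hh
  have hne : 𝒮.Nonempty := card_pos.1 (by omega)
  set k := rk (Df 𝒮) U with hk
  have hkh : k ≤ h := by
    have := rk_Df_add_one_le 𝒮 hne U
    omega
  have hkh' : (k : ℝ) ≤ h := by exact_mod_cast hkh
  have hγ' : γ = (1 + δ) / (h + 1) := by
    field_simp; linarith
  have hγ0 : 0 < γ := by rw [hγ']; positivity
  by_cases hpW : rs U (cv P) ∈ (Df 𝒮).map (rs U)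
  · -- the vector lies in the space
    have hk' : k ≤ rk (Df 𝒮 ⊔ span ℚ {cv P}) U := rk_mono le_sup_left U
    have hk'' : (k : ℝ) ≤ rk (Df 𝒮 ⊔ span ℚ {cv P}) U := by exact_mod_cast hk'
    have hUS' : U ⊆ supp 𝒮 := by
      intro u hu
      by_contra hcon
      have hvan : (Df 𝒮).map (rs U) ≤
          LinearMap.ker (LinearMap.proj (⟨u, hu⟩ : U) : (U → ℚ) →ₗ[ℚ] ℚ) := by
        unfold Df
        rw [map_span, span_le]
        rintro _ ⟨_, ⟨R, hR, R', hR', rfl⟩, rfl⟩
        have e1 : cv R u = 0 := cv_eq_zero fun h' => hcon (mem_supp.2 ⟨R, hR, h'⟩)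
        have e2 : cv R' u = 0 := cv_eq_zero fun h' => hcon (mem_supp.2 ⟨R', hR', h'⟩)
        change cv R u - cv R' u = 0
        rw [e1, e2, sub_zero]
      have h1 : cv P u = 0 := hvan hpW
      have h2 : u ∈ P.toFinset := by
        rcases mem_union.1 (hUS hu) with h' | h'
        · exact h'
        · exact absurd h' hcon
      rw [Multiset.mem_toFinset, ← Multiset.count_ne_zero] at h2
      apply h2
      have : ((P.count u : ℕ) : ℚ) = 0 := h1
      exact_mod_cast this
    rcases lemC2 hh hδ0 hδ hγ h𝒮 hcard hK hU hUS' with h1 | ⟨-, h2⟩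
    · have h3 : (U.card : ℝ) + 1 ≤ (h + 1) * k := by exact_mod_cast h1
      have h4 : γ * (U.card + 1) ≤ γ * ((h + 1) * k) := mul_le_mul_of_nonneg_left h3 hγ0.le
      have h5 : γ * ((h + 1) * k) = (1 + δ) * k := by rw [← hγ]; ring
      have h6 : 1 / (2 * (h + 1) : ℝ) + δ * k ≤ γ := by
        rw [hγ', div_add' _ _ _ (by positivity), div_le_div_iff₀ (by positivity) (by positivity)]
        have : δ * k * (2 * (h + 1)) ≤ 1 := by
          calc δ * k * (2 * (h + 1)) ≤ δ * h * (2 * (h + 1)) := by gcongr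
            _ ≤ δ * (2 * h * (h + 2)) := by nlinarith [mul_pos hδ0 hh0]
            _ ≤ 1 := hδ
        nlinarith
      nlinarith
    · -- exceptional case
      exfalso
      have hsupp : ∀ R ∈ 𝒮, ∀ a ∈ R, a ∈ U := by
        intro R hR a ha
        have h3 : (R.filter (· ∈ U)).card = R.card := by
          rw [card_filter_mem, h2 R hR, (h𝒮 R hR).1]
        have h4 : R.filter (· ∈ U) = R := Multiset.eq_of_le_of_card_le
          (Multiset.filter_le _ _) h3.ge
        rw [← h4] at ha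
        exact (Multiset.mem_filter.1 ha).2
      obtain ⟨R, hR, hdR⟩ := mem_supp.1 hd
      have hdU := hsupp R hR d hdR
      let f : (U → ℚ) →ₗ[ℚ] ℚ := ∑ u : U, LinearMap.proj u
      have hf : ∀ w : U → ℚ, f w = ∑ u, w u := by
        intro w
        simp [f]
      have hvan : (Df 𝒮).map (rs U) ≤ LinearMap.ker f := by
        unfold Df
        rw [map_span, span_le]
        rintro _ ⟨_, ⟨R, hR, R', hR', rfl⟩, rfl⟩
        change f (rs U (cv R - cv R')) = 0
        rw [map_sub, map_sub, hf, hf]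
        have e1 : ∀ R ∈ 𝒮, ∑ u, rs U (cv R) u = (h : ℚ) := by
          intro R hR
          rw [← h2 R hR]
          push_cast
          rfl
        rw [e1 R hR, e1 R' hR', sub_self]
      have h3 : f (rs U (cv P)) = 0 := hvan hpW
      rw [hf] at h3
      have h4 := (sum_eq_zero_iff_of_nonneg (fun u _ => by
        change (0 : ℚ) ≤ (P.count (u : ℕ) : ℚ)
        positivity)).1 h3 ⟨d, hdU⟩ (mem_univ _)
      have h5 : ((P.count d : ℕ) : ℚ) = 0 := h4
      have h6 : P.count d = 0 := by exact_mod_cast h5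
      exact (Multiset.count_ne_zero.2 hdP) h6
  · have h1 := rk_sup_singleton hpW
    have h1' : (k : ℝ) + 1 ≤ rk (Df 𝒮 ⊔ span ℚ {cv P}) U := by exact_mod_cast h1
    -- size of `U`
    have h2 : U.card ≤ (h + 1) * k + h := by
      have h3 : U ⊆ (U ∩ supp 𝒮) ∪ (P.toFinset.erase d) := by
        intro u hu
        by_cases hus : u ∈ supp 𝒮
        · exact mem_union_left _ (mem_inter.2 ⟨hu, hus⟩)
        · apply mem_union_right
          rcases mem_union.1 (hUS hu) with h' | h'
          · refine mem_erase.2 ⟨?_, h'⟩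
            rintro rfl
            exact hus hd
          · exact absurd h' hus
      have h4 : (P.toFinset.erase d).card ≤ h := by
        rw [card_erase_of_mem (Multiset.mem_toFinset.2 hdP)]
        have := Multiset.toFinset_card_le P
        omega
      have h5 : (U ∩ supp 𝒮).card ≤ (h + 1) * k := by
        rcases (U ∩ supp 𝒮).eq_empty_or_nonempty with h' | h'
        · rw [h']; simp
        · have h6 : rk (Df 𝒮) (U ∩ supp 𝒮) ≤ k := rk_mono_set _ inter_subset_left
          have h7 : (h + 1) * rk (Df 𝒮) (U ∩ supp 𝒮) ≤ (h + 1) * k := Nat.mul_le_mul_left _ h6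
          rcases lemC2 hh hδ0 hδ hγ h𝒮 hcard hK h' inter_subset_right with h8 | ⟨h8, -⟩
          · omega
          · omega
      have h6 := card_le_card h3
      have h7 := card_union_le (U ∩ supp 𝒮) (P.toFinset.erase d)
      omega
    have h3 : (U.card : ℝ) ≤ (h + 1) * k + h := by exact_mod_cast h2
    have h4 : γ * U.card ≤ γ * ((h + 1) * k + h) := mul_le_mul_of_nonneg_left h3 hγ0.le
    have h5 : γ * ((h + 1) * k + h) = (1 + δ) * k + (1 + δ) * h / (h + 1) := by
      rw [hγ']; field_simp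
    have h6 : δ * k + (1 + δ) * h / (h + 1) + 1 / (2 * (h + 1)) ≤ 1 := by
      have e : (1 + δ) * h / (h + 1) + 1 / (2 * (h + 1)) =
          (2 * (1 + δ) * h + 1) / (2 * (h + 1) : ℝ) := by field_simp
      have e2 : (2 * (1 + δ) * h + 1) / (2 * (h + 1) : ℝ) ≤ 1 - δ * k := by
        rw [div_le_iff₀ (by positivity)]
        have : (h + 1 : ℝ) * (δ * k) ≤ (h + 1) * (δ * h) := by gcongr
        nlinarith
      linarith
    nlinarith

end Pool.Agent.H65.BHG
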