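import Pool.Agent.H65.BHG.Del

/-!
Bounded number of top elements whose representation meets a deleted element.
-/

namespace Pool.Agent.H65.BHG

open Finset Submodule

/-- The bound on the number of bad representations. -/
def qbound (h : ℕ) : ℕ := (h + 1) ^ 2 * (2 + 2 * (h + 1) * (h + 1) ^ 2)

/-- `d` belongs to a coincidence of `h+1` representations. -/
def Coin (A : Set ℕ) (h : ℕ) (d : ℕ) : Prop :=
  ∃ n : ℕ, ∃ 𝒮 : Finset (Multiset ℕ), (∀ R ∈ 𝒮, R ∈ reps A h n) ∧ 𝒮.card = h + 1 ∧ d ∈ supp 𝒮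

theorem few_bad {A : Set ℕ} {γ δ : ℝ} {h K : ℕ} (hh : 1 ≤ h) (hδ0 : 0 < δ)
    (hδ : δ * (2 * h * (h + 2)) ≤ 1) (hγ : γ * (h + 1) = 1 + δ) (hγ1 : h * γ < 1)
    (hγ2 : 1 < (h + 2 : ℝ) * (1 - h * γ))
    (hQ : QProp γ (h + 1) K A) (hK : qbound h * (h + 1) ^ 2 ≤ K) (n : ℕ) (V : Finset ℕ)
    (hV : ∀ v ∈ V, ∃ P ∈ reps A (h + 1) n, v ∈ P ∧ (∀ a ∈ P, a ≤ v) ∧ ∃ d ∈ P, Coin A h d) :
    V.card < qbound h := by
  classical
  by_contra hcon
  push Not at hcon
  obtain ⟨V', hV'V, hV'card⟩ := exists_subset_card_eq hcon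
  replace hV : ∀ v ∈ V', ∃ P : Multiset ℕ, ∃ d : ℕ, ∃ m : ℕ, ∃ 𝒮 : Finset (Multiset ℕ),
      P ∈ reps A (h + 1) n ∧ v ∈ P ∧ (∀ a ∈ P, a ≤ v) ∧ d ∈ P ∧
      (∀ R ∈ 𝒮, R ∈ reps A h m) ∧ 𝒮.card = h + 1 ∧ d ∈ supp 𝒮 := by
    intro v hv
    obtain ⟨P, hP, h1, h2, d, hd, m, 𝒮, h3, h4, h5⟩ := hV v (hV'V hv)
    exact ⟨P, d, m, 𝒮, hP, h1, h2, hd, h3, h4, h5⟩
  clear hV'V hcon
  clear V
  rename' V' => V
  choose! P d m 𝒮 hP hvP hPv hdP h𝒮 hScard hdS using hV
  have hh0 : (0 : ℝ) < h := by exact_mod_cast hh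
  have hγ' : γ = (1 + δ) / (h + 1) := by
    field_simp; linarith
  have hγ0 : 0 < γ := by rw [hγ']; positivity
  have hγlt : γ < 1 := by
    have : (1 : ℝ) ≤ h := by exact_mod_cast hh
    nlinarith
  have hs0 : 0 < (h + 1) ^ 2 := by positivity
  have hq0 : 0 < qbound h := by unfold qbound; positivity
  have hKhh : (h + 2) * h ≤ K := by
    have h1 : (h + 2) * h ≤ (h + 1) ^ 2 := by nlinarith
    have h2 : (h + 1) ^ 2 ≤ qbound h * (h + 1) ^ 2 := Nat.le_mul_of_pos_left _ hq0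
    omega
  have hKP := Kj hγ0 hγ1 hγ2 (Nat.le_succ h) hKhh hQ
  -- the sets
  set S : ℕ → Finset ℕ := fun i => (P i).toFinset ∪ supp (𝒮 i) with hS
  have hScard' : ∀ i ∈ V, (S i).card ≤ (h + 1) ^ 2 := by
    intro i hi
    have h1 := card_union_le (P i).toFinset (supp (𝒮 i))
    have h2 := Multiset.toFinset_card_le (P i)
    have h3 := supp_card_le_mul (h𝒮 i hi)
    have h4 := (hP i hi).1
    rw [hScard i hi] at h3
    have h5 : (h + 1) ^ 2 = (h + 1) + (h + 1) * h := by ring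
    simp only [hS]
    omega
  set E := V.biUnion S with hE
  have hVne : V.Nonempty := card_pos.1 (by omega)
  have hEne : E.Nonempty := by
    obtain ⟨v, hv⟩ := hVne
    exact ⟨v, mem_biUnion.2 ⟨v, hv, mem_union_left _ (Multiset.mem_toFinset.2 (hvP v hv))⟩⟩
  have hEA : ∀ a ∈ E, a ∈ A := by
    intro a ha
    obtain ⟨i, hi, hai⟩ := mem_biUnion.1 ha
    rcases mem_union.1 hai with h' | h'
    · exact (hP i hi).2.2 a (Multiset.mem_toFinset.1 h')
    · obtain ⟨R, hR, haR⟩ := mem_supp.1 h'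
      exact (h𝒮 i hi R hR).2.2 a haR
  have hEcard : E.card ≤ K := by
    calc E.card ≤ V.card * (h + 1) ^ 2 := card_biUnion_le_card_mul _ _ _ hScard'
      _ ≤ K := by rw [hV'card]; exact hK
  obtain ⟨y, hyne, hyrk⟩ := hQ E hEne hEA hEcard
  set i0 := V.min' hVne with hi0
  have hi0V : i0 ∈ V := min'_mem V hVne
  have hi0le : ∀ i ∈ V, i0 ≤ i := fun i hi => min'_le V i hi
  set U : ℕ → Finset ℕ := fun i =>
    if i ∈ V then up (S i \ (V.filter (· < i)).biUnion S) y else ∅ with hU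
  set Y : ℕ → Submodule ℚ (ℕ → ℚ) := fun i =>
    if i ∈ V then Df (𝒮 i) ⊔ span ℚ {cv (P i) - cv (P i0)} else ⊥ with hY
  have hUV : ∀ i ∈ V, U i = up (S i \ (V.filter (· < i)).biUnion S) y := fun i hi => by
    simp only [hU, if_pos hi]
  have hYV : ∀ i ∈ V, Y i = Df (𝒮 i) ⊔ span ℚ {cv (P i) - cv (P i0)} := fun i hi => by
    simp only [hY, if_pos hi]
  have hUn : ∀ i, i ∉ V → U i = ∅ := fun i hi => by simp only [hU, if_neg hi]
  have hYn : ∀ i, i ∉ V → Y i = ⊥ := fun i hi => by simp only [hY, if_neg hi]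
  have hUS : ∀ i ∈ V, U i ⊆ S i := by
    intro i hi u hu
    rw [hUV i hi, up, mem_filter, mem_sdiff] at hu
    exact hu.1.1
  have hUy : ∀ i ∈ V, ∀ u ∈ U i, y ≤ u := by
    intro i hi u hu
    rw [hUV i hi, up, mem_filter] at hu
    exact hu.2
  have hUdis : ∀ i ∈ V, ∀ i' ∈ V, i < i' → ∀ u ∈ U i', u ∉ S i := by
    intro i hi i' hi' hlt u hu hus
    rw [hUV i' hi', up, mem_filter, mem_sdiff] at hu
    exact hu.1.2 (mem_biUnion.2 ⟨i, mem_filter.2 ⟨hi, hlt⟩, hus⟩)
  have hUcard : ∀ i ∈ V, (U i).card ≤ (h + 1) ^ 2 := fun i hi =>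
    (card_le_card (hUS i hi)).trans (hScard' i hi)
  set N := V.sup id + 1 with hN
  have hVN : V ⊆ range N := by
    intro i hi
    rw [mem_range, hN]
    have : id i ≤ V.sup id := le_sup hi
    simp only [id] at this
    omega
  have hunion : (range N).biUnion U = up E y := by
    ext x
    rw [mem_biUnion, up, mem_filter, hE, mem_biUnion]
    constructor
    · rintro ⟨i, -, hx⟩
      by_cases hi : i ∈ V
      · exact ⟨⟨i, hi, hUS i hi hx⟩, hUy i hi x hx⟩
      · rw [hUn i hi] at hx; simp at hx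
    · rintro ⟨hx, hyx⟩
      have hne : (V.filter fun i => x ∈ S i).Nonempty := by
        obtain ⟨i, hi, hxi⟩ := hx
        exact ⟨i, mem_filter.2 ⟨hi, hxi⟩⟩
      set i := (V.filter fun i => x ∈ S i).min' hne with hi
      have hi1 := min'_mem _ hne
      rw [← hi, mem_filter] at hi1
      refine ⟨i, hVN hi1.1, ?_⟩
      rw [hUV i hi1.1, up, mem_filter, mem_sdiff]
      refine ⟨⟨hi1.2, ?_⟩, hyx⟩
      intro hcon
      obtain ⟨i', hi', hxi'⟩ := mem_biUnion.1 hcon
      rw [mem_filter] at hi'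
      have := min'_le (V.filter fun i => x ∈ S i) i' (mem_filter.2 ⟨hi'.1, hxi'⟩)
      omega
  -- the relations
  have hYle : ∀ i < N, Y i ≤ span ℚ (rel (h + 1) E) := by
    intro i _
    by_cases hi : i ∈ V
    · rw [hYV i hi]
      apply sup_le
      · apply Df_le_span_rel (Nat.le_succ h) (h𝒮 i hi)
        intro a ha
        exact mem_biUnion.2 ⟨i, hi, mem_union_right _ ha⟩
      · rw [span_singleton_le_iff_mem]
        apply subset_span
        apply cv_sub_mem_rel
        · rw [(hP i hi).2.1, (hP i0 hi0V).2.1]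
        · rw [(hP i hi).1]
        · rw [(hP i0 hi0V).1]
        · exact fun a ha => mem_biUnion.2
            ⟨i, hi, mem_union_left _ (Multiset.mem_toFinset.2 ha)⟩
        · exact fun a ha => mem_biUnion.2
            ⟨i0, hi0V, mem_union_left _ (Multiset.mem_toFinset.2 ha)⟩
    · rw [hYn i hi]; exact bot_le
  have hcvP : ∀ i, ∀ u, u ∉ S i → cv (P i) u = 0 := fun i u hu =>
    cv_eq_zero fun h' => hu (mem_union_left _ (Multiset.mem_toFinset.2 h'))
  have hDfS : ∀ i, ∀ u, u ∉ S i → ∀ w ∈ Df (𝒮 i), w u = 0 := by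
    intro i u hu w hw
    have : Df (𝒮 i) ≤ LinearMap.ker (LinearMap.proj u : (ℕ → ℚ) →ₗ[ℚ] ℚ) := by
      unfold Df
      rw [span_le]
      rintro _ ⟨R, hR, R', hR', rfl⟩
      have e1 : cv R u = 0 := cv_eq_zero fun h' =>
        hu (mem_union_right _ (mem_supp.2 ⟨R, hR, h'⟩))
      have e2 : cv R' u = 0 := cv_eq_zero fun h' =>
        hu (mem_union_right _ (mem_supp.2 ⟨R', hR', h'⟩))
      change cv R u - cv R' u = 0
      rw [e1, e2, sub_zero]
    exact this hw
  have hvan : ∀ i i', i < i' → i' < N → ∀ v ∈ Y i, ∀ u ∈ U i', v u = 0 := by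
    intro i i' hlt _ v hv u hu
    by_cases hi : i ∈ V
    · by_cases hi' : i' ∈ V
      · have hu1 := hUdis i hi i' hi' hlt u hu
        have hu0 := hUdis i0 hi0V i' hi' (lt_of_le_of_lt (hi0le i hi) hlt) u hu
        rw [hYV i hi] at hv
        obtain ⟨w, hw, z, hz, rfl⟩ := mem_sup.1 hv
        obtain ⟨c, rfl⟩ := mem_span_singleton.1 hz
        change w u + c * (cv (P i) u - cv (P i0) u) = 0
        rw [hDfS i u hu1 w hw, hcvP i u hu1, hcvP i0 u hu0]
        ring
      · rw [hUn i' hi'] at hu; simp at hu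
    · rw [hYn i hi, mem_bot] at hv
      rw [hv]; rfl
  have hfil := rk_filtration (span ℚ (rel (h + 1) E)) N Y U hYle hvan
  rw [hunion] at hfil
  -- the key inequality
  have hkey : ∀ i ∈ V, (U i).Nonempty → (∀ u ∈ U i, cv (P i0) u = 0) →
      γ * (U i).card + 1 / (2 * (h + 1)) ≤ rk (Y i) (U i) := by
    intro i hi hne hz
    have h1 := KC hh hδ0 hδ hγ (h𝒮 i hi) (hScard i hi) hKP (hP i hi).1 (hdP i hi)
      (hdS i hi) hne (hUS i hi)
    have h2 : rk (Df (𝒮 i) ⊔ span ℚ {cv (P i)}) (U i) ≤ rk (Y i) (U i) := by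
      apply rk_le_of_map_le
      rw [hYV i hi]
      rintro _ ⟨w, hw, rfl⟩
      obtain ⟨w1, hw1, z, hz1, rfl⟩ := mem_sup.1 hw
      obtain ⟨c, rfl⟩ := mem_span_singleton.1 hz1
      refine ⟨w1 + c • (cv (P i) - cv (P i0)), add_mem (mem_sup_left hw1)
        (mem_sup_right (smul_mem _ _ (mem_span_singleton_self _))), ?_⟩
      ext u
      change w1 u + c * (cv (P i) u - cv (P i0) u) = w1 u + c * cv (P i) u
      rw [hz u u.2]
      ring
    have h3 : (rk (Df (𝒮 i) ⊔ span ℚ {cv (P i)}) (U i) : ℝ) ≤ rk (Y i) (U i) := by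
      exact_mod_cast h2
    linarith
  -- sums over `V`
  have hsumV : ∑ i ∈ V, rk (Y i) (U i) ≤ rk (span ℚ (rel (h + 1) E)) (up E y) := by
    refine le_trans (sum_le_sum_of_subset hVN) hfil
  have hsumV' : ∑ i ∈ V, (rk (Y i) (U i) : ℝ) ≤ γ * (up E y).card := by
    refine le_trans ?_ hyrk
    exact_mod_cast hsumV
  have hcardV : (up E y).card ≤ ∑ i ∈ V, (U i).card := by
    rw [← hunion]
    refine le_trans card_biUnion_le ?_
    apply le_of_eq
    symm
    apply sum_subset hVN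
    intro i _ hi
    rw [hUn i hi]; rfl
  have hcardV' : ((up E y).card : ℝ) ≤ ∑ i ∈ V, ((U i).card : ℝ) := by exact_mod_cast hcardV
  have hη : (0 : ℝ) < 1 / (2 * (h + 1)) := by positivity
  by_cases hcase : i0 < y
  · -- the base representation lies below `y`
    have hz : ∀ i ∈ V, ∀ u ∈ U i, cv (P i0) u = 0 := by
      intro i hi u hu
      apply cv_eq_zero
      intro h'
      have h1 := hPv i0 hi0V u h'
      have h2 := hUy i hi u hu
      omega
    have h1 : ∀ i ∈ V, γ * (U i).card ≤ rk (Y i) (U i) := by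
      intro i hi
      rcases (U i).eq_empty_or_nonempty with h' | h'
      · rw [h']; simp
      · have := hkey i hi h' (hz i hi)
        linarith
    obtain ⟨x, hx⟩ := hyne
    rw [← hunion, mem_biUnion] at hx
    obtain ⟨i, -, hxi⟩ := hx
    have hi : i ∈ V := by
      by_contra hcon
      rw [hUn i hcon] at hxi; simp at hxi
    have h2 : ∑ i ∈ V, γ * ((U i).card : ℝ) < ∑ i ∈ V, (rk (Y i) (U i) : ℝ) := by
      apply sum_lt_sum h1
      refine ⟨i, hi, ?_⟩
      have := hkey i hi ⟨x, hxi⟩ (hz i hi)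
      linarith
    rw [← mul_sum] at h2
    have h3 : γ * ((up E y).card : ℝ) ≤ γ * ∑ i ∈ V, ((U i).card : ℝ) :=
      mul_le_mul_of_nonneg_left hcardV' hγ0.le
    linarith
  · push Not at hcase
    -- the number of nonempty pieces
    set T := V.filter fun i => (U i).Nonempty with hT
    have hVU : V ⊆ up E y := by
      intro v hv
      rw [up, mem_filter]
      refine ⟨mem_biUnion.2 ⟨v, hv, mem_union_left _ (Multiset.mem_toFinset.2 (hvP v hv))⟩, ?_⟩
      exact hcase.trans (hi0le v hv)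
    have h1 : qbound h ≤ T.card * (h + 1) ^ 2 := by
      calc qbound h = V.card := hV'card.symm
        _ ≤ (up E y).card := card_le_card hVU
        _ ≤ ∑ i ∈ V, (U i).card := hcardV
        _ = ∑ i ∈ T, (U i).card := by
            rw [hT, sum_filter]
            apply sum_congr rfl
            intro i _
            split_ifs with h'
            · rfl
            · rw [not_nonempty_iff_eq_empty] at h'
              rw [h']; rfl
        _ ≤ ∑ i ∈ T, (h + 1) ^ 2 := sum_le_sum fun i hi => hUcard i (mem_filter.1 hi).1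
        _ = _ := by rw [sum_const, smul_eq_mul]
    have h2 : 2 + 2 * (h + 1) * (h + 1) ^ 2 ≤ T.card := by
      unfold qbound at h1
      rw [mul_comm T.card] at h1
      exact Nat.le_of_mul_le_mul_left h1 hs0
    -- sum over `V` without `i0`
    have hz : ∀ i ∈ V.erase i0, ∀ u ∈ U i, cv (P i0) u = 0 := by
      intro i hi u hu
      obtain ⟨hne, hi⟩ := mem_erase.1 hi
      apply hcvP
      exact hUdis i0 hi0V i hi (lt_of_le_of_ne (hi0le i hi) (Ne.symm hne)) u hu
    have h3 : ∀ i ∈ V.erase i0, γ * ((U i).card : ℝ) +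
        (if (U i).Nonempty then 1 / (2 * (h + 1) : ℝ) else 0) ≤ rk (Y i) (U i) := by
      intro i hi
      split_ifs with h'
      · exact hkey i (mem_of_mem_erase hi) h' (hz i hi)
      · rw [not_nonempty_iff_eq_empty] at h'
        rw [h']; simp
    have h4 := sum_le_sum h3
    rw [sum_add_distrib, ← mul_sum, ← sum_filter, sum_const, nsmul_eq_mul] at h4
    have h5 : T.card ≤ ((V.erase i0).filter fun i => (U i).Nonempty).card + 1 := by
      have : T ⊆ insert i0 ((V.erase i0).filter fun i => (U i).Nonempty) := by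
        intro i hi
        rw [hT, mem_filter] at hi
        by_cases hii : i = i0
        · rw [hii]; exact mem_insert_self _ _
        · exact mem_insert_of_mem (mem_filter.2 ⟨mem_erase.2 ⟨hii, hi.1⟩, hi.2⟩)
      exact (card_le_card this).trans (card_insert_le _ _)
    have h6 : ∑ i ∈ V, ((U i).card : ℝ) = (U i0).card + ∑ i ∈ V.erase i0, ((U i).card : ℝ) :=
      (add_sum_erase V _ hi0V).symm
    have h7 : ∑ i ∈ V, (rk (Y i) (U i) : ℝ) =
        rk (Y i0) (U i0) + ∑ i ∈ V.erase i0, (rk (Y i) (U i) : ℝ) :=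
      (add_sum_erase V _ hi0V).symm
    have h8 : (0 : ℝ) ≤ rk (Y i0) (U i0) := by positivity
    have h9 : ((U i0).card : ℝ) ≤ (h + 1) ^ 2 := by exact_mod_cast hUcard i0 hi0V
    have h10 : γ * ((U i0).card : ℝ) ≤ (h + 1) ^ 2 := by
      calc γ * ((U i0).card : ℝ) ≤ 1 * ((U i0).card : ℝ) := by gcongr
        _ ≤ _ := by rw [one_mul]; exact h9
    have h11 : γ * ((up E y).card : ℝ) ≤ γ * ∑ i ∈ V, ((U i).card : ℝ) :=
      mul_le_mul_of_nonneg_left hcardV' hγ0.le
    set c := ((V.erase i0).filter fun i => (U i).Nonempty).card with hc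
    have h12 : (1 : ℝ) + 2 * (h + 1) * (h + 1) ^ 2 ≤ c := by
      have : 1 + 2 * (h + 1) * (h + 1) ^ 2 ≤ c := by omega
      exact_mod_cast this
    have h13 : (c : ℝ) * (1 / (2 * (h + 1))) ≤ (h + 1) ^ 2 := by
      rw [h6, mul_add] at h11
      linarith
    have h14 : ((1 : ℝ) + 2 * (h + 1) * (h + 1) ^ 2) * (1 / (2 * (h + 1))) =
        1 / (2 * (h + 1)) + (h + 1) ^ 2 := by
      field_simp
    have h15 := mul_le_mul_of_nonneg_right h12 hη.le
    linarith

end Pool.Agent.H65.BHG
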