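import Pool.Agent.H65.BHG.Hit
import Pool.Agent.H65.BHG.Few

/-!
Conclusion: a `B_h[h]` set which is an asymptotic basis of order `h+1`.
-/

namespace Pool.Agent.H65.BHG

open Finset MeasureTheory Filter
open scoped ENNReal Topology

noncomputable section

/-- The growth estimate for the expected number of hits. -/
theorem asym {γ : ℝ} (hγ0 : 0 < γ) (hγ1 : γ ≤ 1) {h : ℕ} (hγh : 1 < (h + 1) * γ) (κ : ℕ) :
    ∀ᶠ L : ℕ in atTop, 2 * Real.log ((2 : ℝ) ^ (L + 1)) ≤
      (((2 ^ ee γ (L - κ)).choose h : ℕ) : ℝ) / (h + 1) / cell γ L := by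
  set η : ℝ := (h + 1) * γ - 1 with hη
  have hη0 : 0 < η := by rw [hη]; linarith
  set c : ℝ := (2 : ℝ) ^ (-(h * γ * κ) - 2 * h - 1) / ((h + 1) * h.factorial) with hc
  have hc0 : 0 < c := by positivity
  have h1 : ∀ᶠ L : ℕ in atTop, (L : ℝ) ≤ c / 4 * Real.exp (η * Real.log 2 * L) := by
    have h2 := (isLittleO_pow_exp_pos_mul_atTop 1
      (show 0 < η * Real.log 2 by positivity)).def (show 0 < c / 4 by positivity)
    have h3 := tendsto_natCast_atTop_atTop (R := ℝ) |>.eventually h2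
    filter_upwards [h3] with L hL
    rw [pow_one, Real.norm_of_nonneg (by positivity), Real.norm_of_nonneg (by positivity)] at hL
    exact hL
  have h2 : ∀ᶠ L : ℕ in atTop, (h : ℝ) + 1 + γ * κ ≤ γ * L := by
    have h3 : Tendsto (fun L : ℕ => γ * (L : ℝ)) atTop atTop :=
      Tendsto.const_mul_atTop hγ0 tendsto_natCast_atTop_atTop
    exact h3.eventually_ge_atTop _
  filter_upwards [h1, h2, eventually_ge_atTop (κ + 1)] with L hL1 hL2 hL3
  set e := ee γ (L - κ) with he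
  have hLκ : ((L - κ : ℕ) : ℝ) = (L : ℝ) - κ := by rw [Nat.cast_sub (by omega)]
  -- lower bound for the exponent
  have he1 : γ * ((L : ℝ) - κ) - 1 ≤ e := by
    have h3 := Nat.lt_floor_add_one (γ * ((L - κ : ℕ) : ℝ))
    rw [hLκ] at h3
    have h4 : (e : ℝ) = (⌊γ * ((L : ℝ) - κ)⌋₊ : ℝ) := by
      rw [he, ee, hLκ]
    rw [h4]; linarith
  have heh : h ≤ e := by
    have : (h : ℝ) ≤ e := by
      have : γ * ((L : ℝ) - κ) = γ * L - γ * κ := by ring
      linarith
    exact_mod_cast this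
  have hN : 2 * h ≤ 2 ^ e := by
    have h3 : h < 2 ^ h := Nat.lt_two_pow_self
    have h4 : (h + 1) ≤ 2 ^ h := h3
    rcases Nat.eq_zero_or_pos h with h0 | h0
    · rw [h0]; simp
    · -- `2 h ≤ 2 ^ h` for `h ≥ 1`
      have h5 : h ≤ 2 ^ (h - 1) := by
        have := Nat.lt_two_pow_self (n := h - 1)
        omega
      calc 2 * h ≤ 2 * 2 ^ (h - 1) := by omega
        _ = 2 ^ h := by
            conv_rhs => rw [show h = (h - 1) + 1 by omega, pow_succ]
            ring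
        _ ≤ 2 ^ e := Nat.pow_le_pow_right (by norm_num) heh
  have hch : ((2 : ℝ) ^ e / 2) ^ h / h.factorial ≤ (((2 ^ e).choose h : ℕ) : ℝ) := by
    have h3 := Nat.pow_le_choose (α := ℝ) h (2 ^ e)
    refine le_trans ?_ h3
    apply div_le_div_of_nonneg_right _ (by positivity)
    apply pow_le_pow_left₀ (by positivity)
    have h4 : 2 ^ e ≤ 2 * (2 ^ e + 1 - h) := by omega
    have h5 : (2 : ℝ) ^ e ≤ 2 * ((2 ^ e + 1 - h : ℕ) : ℝ) := by exact_mod_cast h4
    linarith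
  have hpow : (2 : ℝ) ^ ((γ * ((L : ℝ) - κ) - 2) * h) ≤ ((2 : ℝ) ^ e / 2) ^ h := by
    have h3 : (2 : ℝ) ^ e / 2 = (2 : ℝ) ^ ((e : ℝ) - 1) := by
      rw [Real.rpow_sub (by norm_num), Real.rpow_natCast, Real.rpow_one]
    rw [h3, Real.rpow_mul (by norm_num), Real.rpow_natCast]
    apply pow_le_pow_left₀ (by positivity)
    apply Real.rpow_le_rpow_of_exponent_le (by norm_num)
    linarith
  have hcell : ((cell γ L : ℕ) : ℝ) ≤ (2 : ℝ) ^ ((L : ℝ) - γ * L + 1) := by
    rw [cell_real hγ0.le hγ1]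
    apply Real.rpow_le_rpow_of_exponent_le (by norm_num)
    have h3 := Nat.lt_floor_add_one (γ * (L : ℝ))
    have h4 : (ee γ L : ℝ) = (⌊γ * (L : ℝ)⌋₊ : ℝ) := rfl
    rw [h4]; linarith
  have hcellpos : (0 : ℝ) < (cell γ L : ℕ) := by exact_mod_cast cell_pos γ L
  have hfac : (0 : ℝ) < h.factorial := by exact_mod_cast Nat.factorial_pos h
  have hmain : c * (2 : ℝ) ^ (η * L) ≤ (((2 ^ e).choose h : ℕ) : ℝ) / (h + 1) / cell γ L := by
    calc c * (2 : ℝ) ^ (η * L)
        = (2 : ℝ) ^ ((γ * ((L : ℝ) - κ) - 2) * h) / h.factorial / (h + 1) /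
            (2 : ℝ) ^ ((L : ℝ) - γ * L + 1) := by
          rw [hc, hη]
          have h3 : (2 : ℝ) ^ (-(h * γ * κ) - 2 * h - 1) * (2 : ℝ) ^ (((h + 1) * γ - 1) * L) =
              (2 : ℝ) ^ ((γ * ((L : ℝ) - κ) - 2) * h) / (2 : ℝ) ^ ((L : ℝ) - γ * L + 1) := by
            rw [← Real.rpow_add (by norm_num), ← Real.rpow_sub (by norm_num)]
            congr 1
            ring
          rw [div_mul_eq_mul_div, h3]
          field_simp
      _ ≤ (((2 ^ e).choose h : ℕ) : ℝ) / (h + 1) / (2 : ℝ) ^ ((L : ℝ) - γ * L + 1) := by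
          apply div_le_div_of_nonneg_right _ (by positivity)
          apply div_le_div_of_nonneg_right _ (by positivity)
          exact (div_le_div_of_nonneg_right hpow hfac.le).trans hch
      _ ≤ _ := by
          apply div_le_div_of_nonneg_left (by positivity) hcellpos hcell
  refine le_trans ?_ hmain
  have hlog2 : Real.log 2 ≤ 1 := by
    have := Real.log_le_sub_one_of_pos (show (0 : ℝ) < 2 by norm_num)
    linarith
  have hlog0 : 0 ≤ Real.log 2 := Real.log_nonneg (by norm_num)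
  have hL1' : (1 : ℝ) ≤ L := by exact_mod_cast (by omega : 1 ≤ L)
  have hexp : (2 : ℝ) ^ (η * L) = Real.exp (η * Real.log 2 * L) := by
    rw [Real.rpow_def_of_pos (by norm_num)]
    congr 1
    ring
  rw [Real.log_pow, hexp]
  have h5 : (2 : ℝ) * (((L + 1 : ℕ) : ℝ) * Real.log 2) ≤ 4 * L := by
    push_cast
    nlinarith
  linarith

/-- Many sums under the bound on representations. -/
theorem sums_card {A : Set ℕ} {γ : ℝ} {h j : ℕ} {x : ℕ → ℕ} (hγ1 : h * γ < 1)
    (hγ2 : 1 < (h + 2 : ℝ) * (1 - h * γ)) (hK : KP A γ h)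
    (hA : ∀ q ∈ cells γ j, el γ j x q ∈ A) :
    (((2 ^ ee γ j).choose h : ℕ) : ℝ) / (h + 1) ≤ (sums γ j h x).card := by
  classical
  rw [div_le_iff₀ (by positivity)]
  have h1 : ((cells γ j).powersetCard h).card ≤ (h + 1) * (sums γ j h x).card := by
    unfold sums
    apply card_le_mul_card_image
    intro b _
    set 𝒬 := ((cells γ j).powersetCard h).filter fun Q => ∑ q ∈ Q, el γ j x q = b with h𝒬
    set 𝒮 : Finset (Multiset ℕ) := 𝒬.image (fun Q => Q.val.map (el γ j x)) with h𝒮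
    have hc : 𝒮.card = 𝒬.card := by
      apply card_image_of_injective
      intro Q Q' h
      exact Finset.val_injective (Multiset.map_injective (el_injective γ j x) h)
    have h2 := hK b 𝒮 (by
      intro R hR
      obtain ⟨Q, hQ, rfl⟩ := mem_image.1 hR
      rw [h𝒬, mem_filter, mem_powersetCard] at hQ
      refine ⟨by rw [Multiset.card_map]; exact hQ.1.2, hQ.2, ?_⟩
      intro a ha
      obtain ⟨q, hq, rfl⟩ := Multiset.mem_map.1 ha
      exact hA q (hQ.1.1 hq))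
    rw [hc] at h2
    by_contra hcon
    push Not at hcon
    have h3 : ((h : ℝ) + 2) ≤ 𝒬.card := by
      have : h + 2 ≤ 𝒬.card := hcon
      exact_mod_cast this
    nlinarith
  rw [card_powersetCard, card_cells] at h1
  have h2 : (((2 ^ ee γ j).choose h : ℕ) : ℝ) ≤ (h + 1) * (sums γ j h x).card := by
    exact_mod_cast h1
  linarith

/-- The event that the targets at distance `κ` are missed. -/
def Bad (γ : ℝ) (h κ n : ℕ) : Set (ℕ × ℕ → ℕ) :=
  {ω | (((2 ^ ee γ (Nat.log 2 n - κ)).choose h : ℕ) : ℝ) / (h + 1) ≤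
      (sums γ (Nat.log 2 n - κ) h (fun q => ω (Nat.log 2 n - κ, q))).card ∧
    ∀ s ∈ sums γ (Nat.log 2 n - κ) h (fun q => ω (Nat.log 2 n - κ, q)), n - s ∉ rset γ ω}

theorem low_level {h κ L : ℕ} (hκ : h + 2 ≤ κ) (hL : κ ≤ L) :
    h * 2 ^ (L - κ + 2) ≤ 2 ^ L := by
  have h1 : h ≤ 2 ^ h := Nat.lt_two_pow_self.le
  calc h * 2 ^ (L - κ + 2) ≤ 2 ^ h * 2 ^ (L - κ + 2) := Nat.mul_le_mul_right _ h1
    _ = 2 ^ (h + (L - κ + 2)) := by rw [← pow_add]
    _ ≤ 2 ^ L := Nat.pow_le_pow_right (by norm_num) (by omega)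

/-- The representations obtained when no event `Bad` occurs. -/
theorem many_reps {γ : ℝ} (hγ0 : 0 ≤ γ) (hγ1' : γ ≤ 1) {h q M n : ℕ} (hh : 1 ≤ h)
    (hγ1 : h * γ < 1) (hγ2 : 1 < (h + 2 : ℝ) * (1 - h * γ)) {ω : ℕ × ℕ → ℕ}
    (hK : KP {a | a ∈ rset γ ω ∧ M < a} γ h) (hn : n ≠ 0)
    (hM : M + (h + 2 + q) ≤ Nat.log 2 n) (hbad : ∀ i < q, ω ∉ Bad γ h (h + 2 + i) n) :
    ∃ V : Finset ℕ, V.card = q ∧ ∀ v ∈ V, ∃ P ∈ reps {a | a ∈ rset γ ω ∧ M < a} (h + 1) n,
      v ∈ P ∧ ∀ a ∈ P, a ≤ v := by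
  classical
  set L := Nat.log 2 n with hL
  have hn1 : 2 ^ L ≤ n := Nat.pow_log_le_self 2 hn
  have key : ∀ i < q, ∃ s, s ∈ sums γ (L - (h + 2 + i)) h (fun q => ω (L - (h + 2 + i), q)) ∧
      n - s ∈ rset γ ω := by
    intro i hi
    have h1 := hbad i hi
    unfold Bad at h1
    rw [← hL] at h1
    by_contra hcon
    push Not at hcon
    apply h1
    refine ⟨?_, hcon⟩
    apply sums_card hγ1 hγ2 hK
    intro u hu
    refine ⟨el_mem_rset hγ0 hγ1' ω hu, ?_⟩
    have h2 := (el_bounds hγ0 hγ1' (fun q => ω (L - (h + 2 + i), q)) hu).1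
    have h3 : M < 2 ^ M := Nat.lt_two_pow_self
    have h4 : 2 ^ M ≤ 2 ^ (L - (h + 2 + i)) := Nat.pow_le_pow_right (by norm_num) (by omega)
    omega
  choose! s hs hsr using key
  have hsb : ∀ i < q, h * 2 ^ (L - (h + 2 + i)) ≤ s i ∧ s i < h * 2 ^ (L - (h + 2 + i) + 1) := by
    intro i hi
    refine ⟨(sums_bounds hγ0 hγ1' (hs i hi)).1, ?_⟩
    obtain ⟨Q, hQ, hQs⟩ := mem_image.1 (hs i hi)
    rw [mem_powersetCard] at hQ
    rw [← hQs]
    have h1 : ∑ u ∈ Q, el γ (L - (h + 2 + i)) (fun q => ω (L - (h + 2 + i), q)) u ≤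
        Q.card • (2 ^ (L - (h + 2 + i) + 1) - 1) := by
      apply sum_le_card_nsmul
      intro u hu
      have := (el_bounds hγ0 hγ1' (fun q => ω (L - (h + 2 + i), q)) (hQ.1 hu)).2
      omega
    rw [hQ.2, smul_eq_mul] at h1
    have h2 : 0 < 2 ^ (L - (h + 2 + i) + 1) := by positivity
    refine lt_of_le_of_lt h1 ?_
    apply Nat.mul_lt_mul_of_pos_left _ hh
    omega
  have hs2 : ∀ i < q, 2 * s i ≤ 2 ^ L := by
    intro i hi
    have h1 := (hsb i hi).2
    have h2 := low_level (h := h) (κ := h + 2 + i) (L := L) (by omega) (by omega)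
    have h3 : h * 2 ^ (L - (h + 2 + i) + 2) = 2 * (h * 2 ^ (L - (h + 2 + i) + 1)) := by ring
    omega
  have hanti : ∀ i < q, ∀ i' < q, i < i' → s i' < s i := by
    intro i hi i' hi' hlt
    have h1 := (hsb i hi).1
    have h2 := (hsb i' hi').2
    have h3 : h * 2 ^ (L - (h + 2 + i') + 1) ≤ h * 2 ^ (L - (h + 2 + i)) :=
      Nat.mul_le_mul_left _ (Nat.pow_le_pow_right (by norm_num) (by omega))
    omega
  refine ⟨(range q).image (fun i => n - s i), ?_, ?_⟩
  · rw [card_image_of_injOn, card_range]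
    intro i hi i' hi' hii
    rw [mem_coe, mem_range] at hi hi'
    have h1 := hs2 i hi
    have h2 := hs2 i' hi'
    simp only at hii
    rcases lt_trichotomy i i' with h | h | h
    · have := hanti i hi i' hi' h
      omega
    · exact h
    · have := hanti i' hi' i hi h
      omega
  · intro v hv
    obtain ⟨i, hi, rfl⟩ := mem_image.1 hv
    rw [mem_range] at hi
    have h1 := hs2 i hi
    obtain ⟨Q, hQ, hQs⟩ := mem_image.1 (hs i hi)
    rw [mem_powersetCard] at hQ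
    have hL1 : 2 ^ L = 2 * 2 ^ (L - 1) := by
      conv_lhs => rw [show L = (L - 1) + 1 by omega, pow_succ]
      ring
    have hv1 : 2 ^ (L - 1) ≤ n - s i := by omega
    have hvM : M < n - s i := by
      have h3 : M < 2 ^ M := Nat.lt_two_pow_self
      have h4 : 2 ^ M ≤ 2 ^ (L - 1) := Nat.pow_le_pow_right (by norm_num) (by omega)
      omega
    refine ⟨(n - s i) ::ₘ Q.val.map (el γ (L - (h + 2 + i)) (fun q => ω (L - (h + 2 + i), q))),
      ⟨?_, ?_, ?_⟩, Multiset.mem_cons_self _ _, ?_⟩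
    · rw [Multiset.card_cons, Multiset.card_map]
      exact congrArg (· + 1) hQ.2
    · rw [Multiset.sum_cons]
      change n - s i + ∑ u ∈ Q, el γ (L - (h + 2 + i)) (fun q => ω (L - (h + 2 + i), q)) u = n
      rw [hQs]
      omega
    · intro a ha
      rcases Multiset.mem_cons.1 ha with rfl | ha
      · exact ⟨hsr i hi, hvM⟩
      · obtain ⟨u, hu, rfl⟩ := Multiset.mem_map.1 ha
        refine ⟨el_mem_rset hγ0 hγ1' ω (hQ.1 hu), ?_⟩
        have h2 := (el_bounds hγ0 hγ1' (fun q => ω (L - (h + 2 + i), q)) (hQ.1 hu)).1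
        have h3 : M < 2 ^ M := Nat.lt_two_pow_self
        have h4 : 2 ^ M ≤ 2 ^ (L - (h + 2 + i)) := Nat.pow_le_pow_right (by norm_num) (by omega)
        omega
    · intro a ha
      rcases Multiset.mem_cons.1 ha with rfl | ha
      · exact le_rfl
      · obtain ⟨u, hu, rfl⟩ := Multiset.mem_map.1 ha
        have h2 := (el_bounds hγ0 hγ1' (fun q => ω (L - (h + 2 + i), q)) (hQ.1 hu)).2
        have h4 : 2 ^ (L - (h + 2 + i) + 1) ≤ 2 ^ (L - 1) :=
          Nat.pow_le_pow_right (by norm_num) (by omega)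
        omega

end

end Pool.Agent.H65.BHG
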