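import Pool.Agent.H65.BHG.Prob

/-!
Hitting the targets: for given low elements, the probability that no target is chosen.
-/

namespace Pool.Agent.H65.BHG

open Finset MeasureTheory Filter
open scoped ENNReal Topology

noncomputable section

/-- The cells of level `j`. -/
def cells (γ : ℝ) (j : ℕ) : Finset ℕ := Finset.Ico (2 ^ ee γ j) (2 ^ (ee γ j + 1))

/-- The element chosen in a cell. -/
def el (γ : ℝ) (j : ℕ) (x : ℕ → ℕ) (q : ℕ) : ℕ := q * cell γ j + x q % cell γ j

/-- Sums of `h` different elements of level `j`. -/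
def sums (γ : ℝ) (j h : ℕ) (x : ℕ → ℕ) : Finset ℕ :=
  ((cells γ j).powersetCard h).image (fun Q => ∑ q ∈ Q, el γ j x q)

theorem card_cells (γ : ℝ) (j : ℕ) : (cells γ j).card = 2 ^ ee γ j := by
  rw [cells, Nat.card_Ico, pow_succ]; omega

theorem el_div (γ : ℝ) (j : ℕ) (x : ℕ → ℕ) (q : ℕ) : el γ j x q / cell γ j = q := by
  unfold el
  rw [mul_comm, Nat.mul_add_div (cell_pos γ j), Nat.div_eq_of_lt (Nat.mod_lt _ (cell_pos γ j)),
    add_zero]

theorem el_mod (γ : ℝ) (j : ℕ) (x : ℕ → ℕ) (q : ℕ) :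
    el γ j x q % cell γ j = x q % cell γ j := by
  unfold el
  rw [mul_comm, Nat.mul_add_mod, Nat.mod_mod]

theorem el_injective (γ : ℝ) (j : ℕ) (x : ℕ → ℕ) : Function.Injective (el γ j x) := by
  intro q q' h
  rw [← el_div γ j x q, h, el_div]

theorem el_bounds {γ : ℝ} (hγ0 : 0 ≤ γ) (hγ1 : γ ≤ 1) {j : ℕ} (x : ℕ → ℕ) {q : ℕ}
    (hq : q ∈ cells γ j) : 2 ^ j ≤ el γ j x q ∧ el γ j x q < 2 ^ (j + 1) := by
  rw [cells, mem_Ico] at hq
  have hm := Nat.mod_lt (x q) (cell_pos γ j)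
  have hc : 2 ^ ee γ j * cell γ j = 2 ^ j := by
    unfold cell
    rw [← pow_add, Nat.add_sub_cancel' (ee_le hγ0 hγ1 j)]
  constructor
  · unfold el
    calc 2 ^ j = 2 ^ ee γ j * cell γ j := hc.symm
      _ ≤ q * cell γ j := Nat.mul_le_mul_right _ hq.1
      _ ≤ _ := Nat.le_add_right _ _
  · unfold el
    calc q * cell γ j + x q % cell γ j < q * cell γ j + cell γ j := by omega
      _ = (q + 1) * cell γ j := by ring
      _ ≤ 2 ^ (ee γ j + 1) * cell γ j := Nat.mul_le_mul_right _ hq.2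
      _ = 2 ^ (j + 1) := by rw [pow_succ, mul_right_comm, hc, pow_succ]

theorem el_log {γ : ℝ} (hγ0 : 0 ≤ γ) (hγ1 : γ ≤ 1) {j : ℕ} (x : ℕ → ℕ) {q : ℕ}
    (hq : q ∈ cells γ j) : Nat.log 2 (el γ j x q) = j :=
  Nat.log_eq_of_pow_le_of_lt_pow (el_bounds hγ0 hγ1 x hq).1 (el_bounds hγ0 hγ1 x hq).2

theorem el_mem_rset {γ : ℝ} (hγ0 : 0 ≤ γ) (hγ1 : γ ≤ 1) {j : ℕ} (ω : ℕ × ℕ → ℕ) {q : ℕ}
    (hq : q ∈ cells γ j) : el γ j (fun q => ω (j, q)) q ∈ rset γ ω := by
  have h1 := el_bounds hγ0 hγ1 (fun q => ω (j, q)) hq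
  have h2 := el_log hγ0 hγ1 (fun q => ω (j, q)) hq
  refine ⟨lt_of_lt_of_le (by positivity) h1.1, ?_⟩
  rw [crd, h2, el_div, el_mod]

/-- Probability that a coordinate avoids given targets. -/
theorem mu1_avoid (γ : ℝ) (i : ℕ × ℕ) (T : Finset ℕ) (hT : ∀ t ∈ T, crd γ t = i) :
    mu1 γ i {y | ∀ t ∈ T, y % cell γ i.1 ≠ t % cell γ i.1} ≤
      ENNReal.ofReal (Real.exp (-((T.card : ℝ) / cell γ i.1))) := by
  classical
  rw [mu1_apply]
  set c := cell γ i.1 with hc
  have hc0 : 0 < c := cell_pos γ i.1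
  set F := (range c).filter (· ∈ {y | ∀ t ∈ T, y % c ≠ t % c}) with hF
  have hinj : Set.InjOn (fun t => t % c) (T : Set ℕ) := by
    intro t ht t' ht' h
    have e1 : crd γ t = crd γ t' := by rw [hT t ht, hT t' ht']
    have e2 : Nat.log 2 t = i.1 := congrArg Prod.fst (hT t ht)
    have e3 : Nat.log 2 t' = i.1 := congrArg Prod.fst (hT t' ht')
    have e4 : t / cell γ (Nat.log 2 t) = t' / cell γ (Nat.log 2 t') := congrArg Prod.snd e1
    rw [e2, e3] at e4
    rw [← Nat.div_add_mod t c, ← Nat.div_add_mod t' c, hc, e4]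
    congr 1
  have hle : F.card + T.card ≤ c := by
    have h1 : (T.image fun t => t % c).card = T.card := card_image_of_injOn hinj
    have h2 : Disjoint F (T.image fun t => t % c) := by
      rw [disjoint_left]
      intro y hy hy'
      obtain ⟨t, ht, rfl⟩ := mem_image.1 hy'
      rw [hF, mem_filter] at hy
      exact hy.2 t ht (Nat.mod_mod t c)
    have h3 : F ∪ (T.image fun t => t % c) ⊆ range c := by
      apply union_subset (filter_subset _ _)
      intro y hy
      obtain ⟨t, -, rfl⟩ := mem_image.1 hy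
      exact mem_range.2 (Nat.mod_lt _ hc0)
    have h4 := card_le_card h3
    rw [card_union_of_disjoint h2, h1, card_range] at h4
    exact h4
  have hc0' : (0 : ℝ) < c := by exact_mod_cast hc0
  have h1 : (F.card : ℝ) / c ≤ Real.exp (-((T.card : ℝ) / c)) := by
    have h2 : (F.card : ℝ) + T.card ≤ c := by exact_mod_cast hle
    have h3 : (F.card : ℝ) / c ≤ 1 - (T.card : ℝ) / c := by
      rw [div_le_iff₀ hc0', sub_mul, div_mul_cancel₀ _ hc0'.ne']
      linarith
    have h4 := Real.add_one_le_exp (-((T.card : ℝ) / c))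
    linarith
  refine le_trans (le_of_eq ?_) (ENNReal.ofReal_le_ofReal h1)
  rw [ENNReal.ofReal_div_of_pos hc0', ENNReal.ofReal_natCast, ENNReal.ofReal_natCast]
  congr

/-- Given low coordinates, the probability of missing all targets. -/
theorem fixed_prob (γ : ℝ) (j D : ℕ) (_hD : 0 < D) (C : Finset ℕ) (r : ℕ → ℕ) (T : Finset ℕ)
    (hT : ∀ t ∈ T, 0 < t ∧ Nat.log 2 t ≠ j ∧ cell γ (Nat.log 2 t) ≤ D) :
    mu γ {ω | (∀ q ∈ C, ω (j, q) % cell γ j = r q) ∧ ∀ t ∈ T, t ∉ rset γ ω} ≤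
      (((cell γ j : ℕ) : ℝ≥0∞)⁻¹) ^ C.card * ENNReal.ofReal (Real.exp (-((T.card : ℝ) / D))) := by
  classical
  set I1 : Finset (ℕ × ℕ) := C.image (fun q => (j, q)) with hI1
  set I2 : Finset (ℕ × ℕ) := T.image (crd γ) with hI2
  have hdis : Disjoint I1 I2 := by
    rw [disjoint_left]
    intro i hi hi'
    obtain ⟨q, -, rfl⟩ := mem_image.1 hi
    obtain ⟨t, ht, hti⟩ := mem_image.1 hi'
    exact (hT t ht).2.1 (congrArg Prod.fst hti)
  set t : ℕ × ℕ → Set ℕ := fun i =>
    if i.1 = j then {y | y % cell γ j = r i.2}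
    else {y | ∀ t ∈ T.filter (fun t => crd γ t = i), y % cell γ i.1 ≠ t % cell γ i.1} with ht
  have hsub : {ω : ℕ × ℕ → ℕ | (∀ q ∈ C, ω (j, q) % cell γ j = r q) ∧ ∀ t ∈ T, t ∉ rset γ ω} ⊆
      Set.pi ((I1 ∪ I2 : Finset (ℕ × ℕ)) : Set (ℕ × ℕ)) t := by
    rintro ω ⟨h1, h2⟩ i hi
    rw [mem_coe, mem_union] at hi
    by_cases hij : i.1 = j
    · rcases hi with hi | hi
      · obtain ⟨q, hq, rfl⟩ := mem_image.1 hi
        simp only [ht, if_true]
        exact h1 q hq
      · obtain ⟨u, hu, rfl⟩ := mem_image.1 hi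
        exact absurd hij (hT u hu).2.1
    · simp only [ht, if_neg hij]
      intro u hu
      rw [mem_filter] at hu
      obtain ⟨hu, rfl⟩ := hu
      intro hcon
      exact h2 u hu ⟨(hT u hu).1, hcon⟩
  refine (measure_mono hsub).trans ?_
  rw [mu_box, prod_union hdis]
  apply mul_le_mul'
  · have hc : I1.card = C.card := card_image_of_injective _ (fun q q' h => congrArg Prod.snd h)
    rw [← hc]
    apply prod_le_pow_card
    intro i hi
    obtain ⟨q, -, rfl⟩ := mem_image.1 hi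
    apply mu1_singleton_le γ (j, q) _ (r q)
    intro a ha
    simp only [ht, if_true] at ha
    exact ha
  · have h1 : ∀ i ∈ I2, mu1 γ i (t i) ≤ ENNReal.ofReal
        (Real.exp (-(((T.filter fun t => crd γ t = i).card : ℝ) / D))) := by
      intro i hi
      obtain ⟨u, hu, rfl⟩ := mem_image.1 hi
      have hne : (crd γ u).1 ≠ j := (hT u hu).2.1
      simp only [ht, if_neg hne]
      refine (mu1_avoid γ (crd γ u) (T.filter fun t => crd γ t = crd γ u)
        (fun t ht => (mem_filter.1 ht).2)).trans ?_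
      apply ENNReal.ofReal_le_ofReal
      apply Real.exp_le_exp.2
      apply neg_le_neg
      apply div_le_div_of_nonneg_left (by positivity)
      · exact_mod_cast cell_pos γ _
      · exact_mod_cast (hT u hu).2.2
    refine (prod_le_prod' h1).trans (le_of_eq ?_)
    rw [← ENNReal.ofReal_prod_of_nonneg (fun i _ => (Real.exp_pos _).le), ← Real.exp_sum]
    congr 2
    rw [sum_neg_distrib, ← sum_div]
    congr 2
    have := card_eq_sum_card_image (crd γ) T
    rw [this]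
    push_cast
    rfl

theorem sums_congr {γ : ℝ} {j h : ℕ} {x x' : ℕ → ℕ}
    (hx : ∀ q ∈ cells γ j, x q % cell γ j = x' q % cell γ j) : sums γ j h x = sums γ j h x' := by
  unfold sums
  apply image_congr
  intro Q hQ
  rw [mem_coe, mem_powersetCard] at hQ
  apply sum_congr rfl
  intro q hq
  unfold el
  rw [hx q (hQ.1 hq)]

theorem sums_bounds {γ : ℝ} (hγ0 : 0 ≤ γ) (hγ1 : γ ≤ 1) {j h : ℕ} {x : ℕ → ℕ} {s : ℕ}
    (hs : s ∈ sums γ j h x) : h * 2 ^ j ≤ s ∧ s ≤ h * 2 ^ (j + 1) := by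
  obtain ⟨Q, hQ, rfl⟩ := mem_image.1 hs
  rw [mem_powersetCard] at hQ
  constructor
  · rw [← hQ.2]
    apply card_nsmul_le_sum
    intro q hq
    exact (el_bounds hγ0 hγ1 x (hQ.1 hq)).1
  · rw [← hQ.2]
    apply sum_le_card_nsmul
    intro q hq
    exact (el_bounds hγ0 hγ1 x (hQ.1 hq)).2.le

theorem ee_mono {γ : ℝ} (hγ0 : 0 ≤ γ) {i j : ℕ} (hij : i ≤ j) : ee γ i ≤ ee γ j := by
  unfold ee
  apply Nat.floor_le_floor
  have : (i : ℝ) ≤ j := by exact_mod_cast hij
  nlinarith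

theorem cell_succ_le {γ : ℝ} (hγ0 : 0 ≤ γ) (hγ1 : γ ≤ 1) (j : ℕ) : cell γ j ≤ cell γ (j + 1) := by
  unfold cell
  apply Nat.pow_le_pow_right (by norm_num)
  have h1 : ee γ (j + 1) ≤ ee γ j + 1 := by
    unfold ee
    rw [← Nat.floor_add_one (by positivity)]
    apply Nat.floor_le_floor
    push_cast
    nlinarith
  have h2 := ee_le hγ0 hγ1 j
  omega

/-- The probability of missing all targets while the low sums are numerous. -/
theorem bad_prob {γ : ℝ} (hγ0 : 0 ≤ γ) (hγ1 : γ ≤ 1) {j h L n : ℕ} (hn1 : 2 ^ L ≤ n)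
    (hn2 : n < 2 ^ (L + 1)) (hjL : h * 2 ^ (j + 2) ≤ 2 ^ L) (hh : 1 ≤ h) (N0 : ℝ) :
    mu γ {ω | N0 ≤ (sums γ j h (fun q => ω (j, q))).card ∧
      ∀ s ∈ sums γ j h (fun q => ω (j, q)), n - s ∉ rset γ ω} ≤
      ENNReal.ofReal (Real.exp (-(N0 / cell γ L))) := by
  classical
  have hjL' : j + 2 ≤ L := by
    have h1 : 2 ^ (j + 2) ≤ 2 ^ L := le_trans (Nat.le_mul_of_pos_left _ hh) hjL
    exact (Nat.pow_le_pow_iff_right (by norm_num)).1 h1
  obtain ⟨L', rfl⟩ : ∃ L', L = L' + 1 := ⟨L - 1, by omega⟩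
  have hD := cell_pos γ (L' + 1)
  set ext : (cells γ j → Fin (cell γ j)) → (ℕ → ℕ) := fun x q =>
    if hq : q ∈ cells γ j then (x ⟨q, hq⟩ : ℕ) else 0 with hext
  have hexteq : ∀ x : cells γ j → Fin (cell γ j), ∀ q, ∀ hq : q ∈ cells γ j,
      ext x q = x ⟨q, hq⟩ := by
    intro x q hq
    simp only [hext, dif_pos hq]
  have hcover : {ω : ℕ × ℕ → ℕ | N0 ≤ (sums γ j h (fun q => ω (j, q))).card ∧
      ∀ s ∈ sums γ j h (fun q => ω (j, q)), n - s ∉ rset γ ω} ⊆
      ⋃ x : cells γ j → Fin (cell γ j), {ω | N0 ≤ (sums γ j h (ext x)).card ∧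
        (∀ q ∈ cells γ j, ω (j, q) % cell γ j = ext x q) ∧
        ∀ t ∈ (sums γ j h (ext x)).image (fun s => n - s), t ∉ rset γ ω} := by
    rintro ω ⟨h1, h2⟩
    rw [Set.mem_iUnion]
    set x : cells γ j → Fin (cell γ j) := fun q =>
      ⟨ω (j, (q : ℕ)) % cell γ j, Nat.mod_lt _ (cell_pos γ j)⟩ with hx
    have hxq : ∀ q ∈ cells γ j, ω (j, q) % cell γ j = ext x q := by
      intro q hq
      rw [hexteq x q hq]
    have hs : sums γ j h (fun q => ω (j, q)) = sums γ j h (ext x) := by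
      apply sums_congr
      intro q hq
      rw [← hxq q hq, Nat.mod_mod]
    refine ⟨x, ?_, hxq, ?_⟩
    · rw [← hs]; exact h1
    · intro t ht
      obtain ⟨s, hs', rfl⟩ := mem_image.1 ht
      exact h2 s (by rw [hs]; exact hs')
  refine (measure_mono hcover).trans ((measure_iUnion_le _).trans ?_)
  rw [tsum_fintype]
  have hone : ∀ x : cells γ j → Fin (cell γ j),
      mu γ {ω | N0 ≤ (sums γ j h (ext x)).card ∧
        (∀ q ∈ cells γ j, ω (j, q) % cell γ j = ext x q) ∧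
        ∀ t ∈ (sums γ j h (ext x)).image (fun s => n - s), t ∉ rset γ ω} ≤
      (((cell γ j : ℕ) : ℝ≥0∞)⁻¹) ^ (cells γ j).card *
        ENNReal.ofReal (Real.exp (-(N0 / cell γ (L' + 1)))) := by
    intro x
    by_cases hN : N0 ≤ (sums γ j h (ext x)).card
    · have h1 : {ω : ℕ × ℕ → ℕ | N0 ≤ (sums γ j h (ext x)).card ∧
          (∀ q ∈ cells γ j, ω (j, q) % cell γ j = ext x q) ∧
          ∀ t ∈ (sums γ j h (ext x)).image (fun s => n - s), t ∉ rset γ ω} ⊆
          {ω | (∀ q ∈ cells γ j, ω (j, q) % cell γ j = ext x q) ∧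
          ∀ t ∈ (sums γ j h (ext x)).image (fun s => n - s), t ∉ rset γ ω} := fun ω hω => hω.2
      refine (measure_mono h1).trans ?_
      have hsb : ∀ s ∈ sums γ j h (ext x), 2 * s ≤ 2 ^ (L' + 1) := by
        intro s hs
        have := (sums_bounds hγ0 hγ1 hs).2
        have e : h * 2 ^ (j + 2) = 2 * (h * 2 ^ (j + 1)) := by ring
        omega
      have hlog : ∀ s ∈ sums γ j h (ext x), 0 < n - s ∧
          (Nat.log 2 (n - s) = L' ∨ Nat.log 2 (n - s) = L' + 1) := by
        intro s hs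
        have h2 := hsb s hs
        have h3 : 2 ^ (L' + 1) = 2 * 2 ^ L' := by ring
        have h4 : 2 ^ L' ≤ n - s := by omega
        have h5 : 0 < 2 ^ L' := by positivity
        refine ⟨by omega, ?_⟩
        by_cases h6 : n - s < 2 ^ (L' + 1)
        · left; exact Nat.log_eq_of_pow_le_of_lt_pow h4 h6
        · right
          apply Nat.log_eq_of_pow_le_of_lt_pow (by omega)
          omega
      have h2 := fixed_prob γ j (cell γ (L' + 1)) hD (cells γ j) (ext x)
        ((sums γ j h (ext x)).image (fun s => n - s)) (by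
          intro t ht
          obtain ⟨s, hs, rfl⟩ := mem_image.1 ht
          obtain ⟨h3, h4⟩ := hlog s hs
          refine ⟨h3, ?_, ?_⟩
          · rcases h4 with h4 | h4 <;> omega
          · rcases h4 with h4 | h4
            · rw [h4]; exact cell_succ_le hγ0 hγ1 L'
            · rw [h4])
      refine h2.trans ?_
      gcongr
      have h3 : ((sums γ j h (ext x)).image (fun s => n - s)).card =
          (sums γ j h (ext x)).card := by
        apply card_image_of_injOn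
        intro s hs s' hs' hss'
        have e1 := hsb s hs
        have e2 := hsb s' hs'
        simp only at hss'
        omega
      rw [h3]
      exact hN
    · have : {ω : ℕ × ℕ → ℕ | N0 ≤ (sums γ j h (ext x)).card ∧
          (∀ q ∈ cells γ j, ω (j, q) % cell γ j = ext x q) ∧
          ∀ t ∈ (sums γ j h (ext x)).image (fun s => n - s), t ∉ rset γ ω} = ∅ := by
        ext ω
        simp only [Set.mem_empty_iff_false, iff_false]
        rintro ⟨h1, -⟩
        exact hN h1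
      rw [this, measure_empty]
      exact zero_le
  refine (sum_le_sum fun x _ => hone x).trans ?_
  rw [sum_const, card_univ, Fintype.card_fun, Fintype.card_fin, Fintype.card_coe, nsmul_eq_mul,
    ← mul_assoc]
  have hcj : ((cell γ j : ℕ) : ℝ≥0∞) ≠ 0 := by
    have := cell_pos γ j
    exact_mod_cast this.ne'
  have h1 : (((cell γ j ^ (cells γ j).card : ℕ) : ℝ≥0∞)) *
      (((cell γ j : ℕ) : ℝ≥0∞)⁻¹) ^ (cells γ j).card = 1 := by
    push_cast
    rw [← mul_pow, ENNReal.mul_inv_cancel hcj (ENNReal.natCast_ne_top _), one_pow]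
  rw [h1, one_mul]

end

end Pool.Agent.H65.BHG
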