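import Pool.Agent.H65.BHG.Struct

/-!
Number of representations in a set with the rank property.
-/

namespace Pool.Agent.H65.BHG

open Finset Submodule

theorem Df_le_span_rel {H : ℕ} {E : Finset ℕ} {A : Set ℕ} {j n : ℕ} (hj : j ≤ H)
    {𝒮 : Finset (Multiset ℕ)} (h𝒮 : ∀ R ∈ 𝒮, R ∈ reps A j n) (hE : supp 𝒮 ⊆ E) :
    Df 𝒮 ≤ span ℚ (rel H E) := by
  unfold Df
  rw [span_le]
  rintro _ ⟨R, hR, R', hR', rfl⟩
  apply subset_span
  apply cv_sub_mem_rel
  · rw [(h𝒮 R hR).2.1, (h𝒮 R' hR').2.1]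
  · rw [(h𝒮 R hR).1]; exact hj
  · rw [(h𝒮 R' hR').1]; exact hj
  · exact fun a ha => hE (mem_supp.2 ⟨R, hR, ha⟩)
  · exact fun a ha => hE (mem_supp.2 ⟨R', hR', ha⟩)

theorem supp_card_le_mul {A : Set ℕ} {j n : ℕ} {𝒮 : Finset (Multiset ℕ)}
    (h𝒮 : ∀ R ∈ 𝒮, R ∈ reps A j n) : (supp 𝒮).card ≤ 𝒮.card * j := by
  classical
  apply card_biUnion_le_card_mul
  intro R hR
  exact (Multiset.toFinset_card_le R).trans (h𝒮 R hR).1.le

/-- The number of representations with `j ≤ h` summands is controlled. -/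
theorem Kj {A : Set ℕ} {γ : ℝ} {h H K : ℕ} (hγ0 : 0 < γ) (hγ1 : h * γ < 1)
    (hγ2 : 1 < (h + 2 : ℝ) * (1 - h * γ)) (hH : h ≤ H) (hK : (h + 2) * h ≤ K)
    (hQ : QProp γ H K A) : ∀ j ≤ h, KP A γ j := by
  classical
  intro j
  induction j using Nat.strong_induction_on with
  | _ j ih =>
    intro hjh n 𝒮 h𝒮
    rcases Nat.eq_zero_or_pos j with rfl | hj
    · -- no summands
      have h1 : 𝒮 ⊆ {0} := by
        intro R hR
        rw [mem_singleton]
        exact Multiset.card_eq_zero.1 (h𝒮 R hR).1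
      have h2 := card_le_card h1
      rw [card_singleton] at h2
      have h3 : (𝒮.card : ℝ) ≤ 1 := by exact_mod_cast h2
      simpa using h3
    · by_contra hcon
      push Not at hcon
      have hjh' : (j : ℝ) ≤ h := by exact_mod_cast hjh
      have ha : 1 - h * γ ≤ 1 - j * γ := by nlinarith
      have hjγ : j * γ < 1 := by nlinarith
      -- a subfamily of bounded size
      obtain ⟨𝒮', hsub, hcard, hbig⟩ : ∃ 𝒮' ⊆ 𝒮, 𝒮'.card ≤ h + 2 ∧
          1 < (𝒮'.card : ℝ) * (1 - j * γ) := by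
        by_cases hc : 𝒮.card ≤ h + 2
        · exact ⟨𝒮, Subset.refl _, hc, hcon⟩
        · obtain ⟨𝒮', h1, h2⟩ := exists_subset_card_eq (s := 𝒮) (n := h + 2) (by omega)
          refine ⟨𝒮', h1, h2.le, ?_⟩
          rw [h2]
          push_cast
          have h3 : (0 : ℝ) ≤ h + 2 := by positivity
          nlinarith
      have h𝒮' : ∀ R ∈ 𝒮', R ∈ reps A j n := fun R hR => h𝒮 R (hsub hR)
      have hne : 𝒮'.Nonempty := by
        rw [nonempty_iff_ne_empty]
        rintro rfl
        simp at hbig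
        linarith
      set E := supp 𝒮' with hE
      have hEne : E.Nonempty := by
        obtain ⟨R, hR⟩ := hne
        obtain ⟨a, ha⟩ := Multiset.card_pos_iff_exists_mem.1 (show 0 < R.card by
          rw [(h𝒮' R hR).1]; exact hj)
        exact ⟨a, mem_supp.2 ⟨R, hR, ha⟩⟩
      have hEA : ∀ a ∈ E, a ∈ A := by
        intro a ha
        obtain ⟨R, hR, haR⟩ := mem_supp.1 ha
        exact (h𝒮' R hR).2.2 a haR
      have hEc : E.card ≤ K := by
        calc E.card ≤ 𝒮'.card * j := supp_card_le_mul h𝒮'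
          _ ≤ (h + 2) * h := Nat.mul_le_mul hcard hjh
          _ ≤ K := hK
      obtain ⟨y, hy, hrk⟩ := hQ E hEne hEA hEc
      have h1 := lemC hγ0 hjγ h𝒮' (fun i hi => ih i hi (by omega)) hbig hy
        (filter_subset _ _)
      have h2 := rk_mono (Df_le_span_rel (hjh.trans hH) h𝒮' (Subset.refl E)) (up E y)
      have h3 : (rk (Df 𝒮') (up E y) : ℝ) ≤ rk (span ℚ (rel H E)) (up E y) := by exact_mod_cast h2
      linarith

/-- Lemma C'': the extremal case of `h+1` representations. -/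
theorem lemC2 {A : Set ℕ} {γ δ : ℝ} {h n : ℕ} (hh : 1 ≤ h) (hδ0 : 0 < δ)
    (hδ : δ * (2 * h * (h + 2)) ≤ 1) (hγ : γ * (h + 1) = 1 + δ)
    {𝒮 : Finset (Multiset ℕ)} (h𝒮 : ∀ R ∈ 𝒮, R ∈ reps A h n) (hcard : 𝒮.card = h + 1)
    (hK : ∀ i ≤ h, KP A γ i) {U : Finset ℕ} (hU : U.Nonempty) (hUS : U ⊆ supp 𝒮) :
    U.card + 1 ≤ (h + 1) * rk (Df 𝒮) U ∨
      (U.card ≤ (h + 1) * rk (Df 𝒮) U ∧ ∀ R ∈ 𝒮, ∑ u, rv U R u = h) := by
  classical
  rcases core' h (fun R hR => (h𝒮 R hR).1.le) hU hUS with h1 | ⟨hpos, hr, hUc⟩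
  · left
    have h2 : 0 < U.card := card_pos.2 hU
    have h3 : 0 < rk (Df 𝒮) U := by
      rcases Nat.eq_zero_or_pos (rk (Df 𝒮) U) with h0 | h0
      · rw [h0] at h1; omega
      · exact h0
    calc U.card + 1 ≤ h * rk (Df 𝒮) U + rk (Df 𝒮) U := by omega
      _ = _ := by ring
  · set I := 𝒮.image (rv U) with hI
    -- the integer bound
    have hint : ∀ C ∈ I, (𝒮.filter fun R => rv U R = C).card * (∑ u, C u + 1) ≤ h + 1 := by
      intro C hC
      have hwj : ∑ u, C u ≤ h := by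
        obtain ⟨R, hR, rfl⟩ := mem_image.1 hC
        exact (sum_rv_le U R).trans (h𝒮 R hR).1.le
      have h2 := mult_bound h𝒮 U (hK (h - ∑ u, C u) (by omega)) hC
      set m := (𝒮.filter fun R => rv U R = C).card with hm
      set w := ∑ u, C u with hw
      have hmle : m ≤ h + 1 := by rw [hm, ← hcard]; exact card_filter_le _ _
      rw [Nat.cast_sub hwj] at h2
      have hmle' : (m : ℝ) ≤ h + 1 := by exact_mod_cast hmle
      have hm0 : (0 : ℝ) ≤ m := by positivity
      have hw0 : (0 : ℝ) ≤ w := by positivity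
      have hh0 : (0 : ℝ) < h := by exact_mod_cast hh
      have hwh : (w : ℝ) ≤ h := by exact_mod_cast hwj
      have h3 : (m : ℝ) * ((h + 1) - (h - w) * (1 + δ)) ≤ h + 1 := by
        have : (m : ℝ) * (1 - (h - w) * γ) * (h + 1) ≤ 1 * (h + 1) :=
          mul_le_mul_of_nonneg_right h2 (by positivity)
        rw [← hγ]
        nlinarith
      have h4 : (m : ℝ) * ((h - w) * δ) ≤ (h + 1) * (h * δ) := by
        apply mul_le_mul hmle' _ (by apply mul_nonneg (by linarith) hδ0.le) (by positivity)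
        nlinarith
      have h5 : (h + 1 : ℝ) * (h * δ) < 1 := by
        nlinarith [mul_pos hδ0 hh0]
      have h6 : (m : ℝ) * (w + 1) < (h + 1 : ℝ) + 1 := by nlinarith
      have h7 : m * (w + 1) < h + 1 + 1 := by exact_mod_cast h6
      omega
    have hm1 : ∀ C ∈ I, 1 ≤ (𝒮.filter fun R => rv U R = C).card := by
      intro C hC
      obtain ⟨R, hR, hRC⟩ := mem_image.1 hC
      exact card_pos.2 ⟨R, mem_filter.2 ⟨hR, hRC⟩⟩
    have hle : ∀ C ∈ I, (∑ u, C u) + (𝒮.filter fun R => rv U R = C).card ≤ h + 1 := by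
      intro C hC
      have h2 := hint C hC
      have h3 := hm1 C hC
      have h4 := hpos C hC
      set m := (𝒮.filter fun R => rv U R = C).card with hm
      set w := ∑ u, C u with hw
      nlinarith
    have hsum : ∑ C ∈ I, ((∑ u, C u) + (𝒮.filter fun R => rv U R = C).card) ≤ (h + 1) * I.card := by
      calc _ ≤ ∑ C ∈ I, (h + 1) := sum_le_sum hle
        _ = _ := by rw [sum_const, smul_eq_mul, mul_comm]
    rw [sum_add_distrib, sum_mult U 𝒮, hcard] at hsum
    have hrk : (h + 1) * I.card = (h + 1) * rk (Df 𝒮) U + (h + 1) := by rw [← hr]; ring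
    by_cases hall : ∀ C ∈ I, ∑ u, C u = h
    · right
      refine ⟨by omega, fun R hR => hall _ (mem_image_of_mem _ hR)⟩
    · left
      push Not at hall
      obtain ⟨C, hC, hne⟩ := hall
      have hlt : (∑ u, C u) + (𝒮.filter fun R => rv U R = C).card < h + 1 := by
        have h2 := hint C hC
        have h3 := hm1 C hC
        have h4 := hpos C hC
        have h5 := hle C hC
        set m := (𝒮.filter fun R => rv U R = C).card with hm
        set w := ∑ u, C u with hw
        rcases Nat.lt_or_ge 1 m with h6 | h6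
        · nlinarith
        · have h7 : m = 1 := by omega
          rw [h7] at h2 h5 ⊢
          omega
      have hsum' : ∑ C ∈ I, ((∑ u, C u) + (𝒮.filter fun R => rv U R = C).card) <
          (h + 1) * I.card := by
        calc _ < ∑ C ∈ I, (h + 1) := sum_lt_sum hle ⟨C, hC, hlt⟩
          _ = _ := by rw [sum_const, smul_eq_mul, mul_comm]
      rw [sum_add_distrib, sum_mult U 𝒮, hcard] at hsum'
      omega

end Pool.Agent.H65.BHG
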