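import Pool.Agent.H65.BHG.Defs

/-!
Ranks of spaces of functions on finite sets.
-/

namespace Pool.Agent.H65.BHG

open Finset

theorem rs_apply (U : Finset ℕ) (v : ℕ → ℚ) (u : U) : rs U v u = v u := rfl

theorem rk_mono {V V' : Submodule ℚ (ℕ → ℚ)} (h : V ≤ V') (U : Finset ℕ) :
    rk V U ≤ rk V' U :=
  Submodule.finrank_mono (Submodule.map_mono h)

/-- If two spaces have the same restrictions, their ranks agree. -/
theorem rk_congr {V V' : Submodule ℚ (ℕ → ℚ)} {U : Finset ℕ}
    (h : V.map (rs U) = V'.map (rs U)) : rk V U = rk V' U := by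
  unfold rk; rw [h]

theorem rk_le_of_map_le {V V' : Submodule ℚ (ℕ → ℚ)} {U : Finset ℕ}
    (h : V.map (rs U) ≤ V'.map (rs U)) : rk V U ≤ rk V' U :=
  Submodule.finrank_mono h

/-- Superadditivity of the rank for a space vanishing on the second set. -/
theorem rk_union {V V' V'' : Submodule ℚ (ℕ → ℚ)} (h' : V' ≤ V) (h'' : V'' ≤ V)
    {U' U'' : Finset ℕ} (hz : ∀ v ∈ V', ∀ u ∈ U'', v u = 0) :
    rk V' U' + rk V'' U'' ≤ rk V (U' ∪ U'') := by
  classical
  set T := U' ∪ U'' with hT
  have i1 : ∀ u : U', (u : ℕ) ∈ T := fun u => by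
    rw [hT]; exact mem_union_left _ u.2
  have i2 : ∀ u : U'', (u : ℕ) ∈ T := fun u => by
    rw [hT]; exact mem_union_right _ u.2
  let p1 : (T → ℚ) →ₗ[ℚ] (U' → ℚ) := LinearMap.funLeft ℚ ℚ (fun u : U' => (⟨u, i1 u⟩ : T))
  let p2 : (T → ℚ) →ₗ[ℚ] (U'' → ℚ) := LinearMap.funLeft ℚ ℚ (fun u : U'' => (⟨u, i2 u⟩ : T))
  set M := V.map (rs T) with hM
  let f : M →ₗ[ℚ] (U'' → ℚ) := p2.comp M.subtype
  have hrn := LinearMap.finrank_range_add_finrank_ker f
  have hr : rk V'' U'' ≤ Module.finrank ℚ (LinearMap.range f) := by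
    apply Submodule.finrank_mono
    rintro _ ⟨v, hv, rfl⟩
    exact ⟨⟨rs T v, ⟨v, h'' hv, rfl⟩⟩, by ext u; rfl⟩
  have hk : rk V' U' ≤ Module.finrank ℚ (LinearMap.ker f) := by
    -- map from the kernel onto a space containing the restrictions of `V'`
    let g : LinearMap.ker f →ₗ[ℚ] (U' → ℚ) := (p1.comp M.subtype).comp (LinearMap.ker f).subtype
    have h1 : rk V' U' ≤ Module.finrank ℚ (LinearMap.range g) := by
      apply Submodule.finrank_mono
      rintro _ ⟨v, hv, rfl⟩
      refine ⟨⟨⟨rs T v, ⟨v, h' hv, rfl⟩⟩, ?_⟩, by ext u; rfl⟩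
      rw [LinearMap.mem_ker]
      ext u
      exact hz v hv u u.2
    exact h1.trans (LinearMap.finrank_range_le g)
  have : rk V T = Module.finrank ℚ M := rfl
  omega

theorem rk_empty (V : Submodule ℚ (ℕ → ℚ)) : rk V ∅ = 0 := by
  unfold rk
  have h := Submodule.finrank_le (V.map (rs ∅))
  have : Module.finrank ℚ ((∅ : Finset ℕ) → ℚ) = 0 := by simp
  omega

/-- Filtration lemma. -/
theorem rk_filtration (V : Submodule ℚ (ℕ → ℚ)) (q : ℕ) (Y : ℕ → Submodule ℚ (ℕ → ℚ))
    (U : ℕ → Finset ℕ) (hY : ∀ i < q, Y i ≤ V)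
    (hz : ∀ i i', i < i' → i' < q → ∀ v ∈ Y i, ∀ u ∈ U i', v u = 0) :
    ∑ i ∈ range q, rk (Y i) (U i) ≤ rk V ((range q).biUnion U) := by
  classical
  induction q generalizing V with
  | zero => simp
  | succ q ih =>
    rw [sum_range_succ]
    have h1 := ih (⨆ i ∈ range q, Y i)
      (fun i hi => le_iSup₂_of_le i (mem_range.2 hi) le_rfl)
      (fun i i' h1 h2 v hv u hu => hz i i' h1 (by omega) v hv u hu)
    have h2 : (⨆ i ∈ range q, Y i) ≤ V := by
      apply iSup₂_le
      intro i hi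
      exact hY i (by have := mem_range.1 hi; omega)
    have h3 : ∀ v ∈ (⨆ i ∈ range q, Y i), ∀ u ∈ U q, v u = 0 := by
      intro v hv u hu
      have : (⨆ i ∈ range q, Y i) ≤ LinearMap.ker (LinearMap.proj u : (ℕ → ℚ) →ₗ[ℚ] ℚ) := by
        apply iSup₂_le
        intro i hi w hw
        rw [LinearMap.mem_ker]
        exact hz i q (mem_range.1 hi) (by omega) w hw u hu
      exact this hv
    have h4 := rk_union h2 (hY q (by omega)) (U' := (range q).biUnion U) h3
    have h5 : (range (q + 1)).biUnion U = (range q).biUnion U ∪ U q := by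
      rw [range_add_one, biUnion_insert, union_comm]
    rw [h5]
    omega

/-- The vector of a multiset vanishes outside its support. -/
theorem cv_eq_zero {m : Multiset ℕ} {a : ℕ} (h : a ∉ m) : cv m a = 0 := by
  simp [cv, h]

/-- Differences of representations are relations. -/
theorem cv_sub_mem_rel {H : ℕ} {E : Finset ℕ} {m m' : Multiset ℕ} (hs : m.sum = m'.sum)
    (hm : m.card ≤ H) (hm' : m'.card ≤ H) (hE : ∀ a ∈ m, a ∈ E) (hE' : ∀ a ∈ m', a ∈ E) :
    cv m - cv m' ∈ rel H E := by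
  refine ⟨fun a => (m.count a : ℤ) - m'.count a, ?_, ?_, ?_, ?_⟩
  · intro a
    have h1 : m.count a ≤ H := (Multiset.count_le_card a m).trans hm
    have h2 : m'.count a ≤ H := (Multiset.count_le_card a m').trans hm'
    dsimp only
    rw [abs_le]
    constructor <;> omega
  · intro a ha
    have h1 : m.count a = 0 := Multiset.count_eq_zero.2 fun h => ha (hE a h)
    have h2 : m'.count a = 0 := Multiset.count_eq_zero.2 fun h => ha (hE' a h)
    simp [h1, h2]
  · have key : ∀ m : Multiset ℕ, (∀ a ∈ m, a ∈ E) → ∑ a ∈ E, (m.count a : ℤ) * (a : ℤ) = m.sum := by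
      intro m hm
      have h1 : m.sum = ∑ a ∈ m.toFinset, m.count a • a := Finset.sum_multiset_count m
      have h2 : ∑ a ∈ m.toFinset, m.count a • a = ∑ a ∈ E, m.count a • a := by
        apply Finset.sum_subset
        · intro a ha
          exact hm a (Multiset.mem_toFinset.1 ha)
        · intro a _ ha
          rw [Multiset.mem_toFinset] at ha
          simp [Multiset.count_eq_zero.2 ha]
      rw [h1, h2]
      push_cast
      simp
    simp only [sub_mul, sum_sub_distrib]
    rw [key m hE, key m' hE', hs]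
    simp
  · funext a
    simp [cv]

end Pool.Agent.H65.BHG
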