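import Pool.Agent.H65.BHG.Final

/-!
The main theorem.
-/

namespace Pool.Agent.H65.BHG

open Finset MeasureTheory Filter
open scoped ENNReal Topology

/-- For `1 ≤ h` there is a set of positive integers with at most `h` representations of each
integer as a sum of `h` elements, such that every large integer is a sum of `h+1` elements. -/
theorem main (h : ℕ) (hh : 1 ≤ h) : ∃ A : Set ℕ, (∀ a ∈ A, 0 < a) ∧
    (∀ n, (reps A h n).encard ≤ h) ∧ ∃ N, ∀ n ≥ N, (reps A (h + 1) n).Nonempty := by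
  classical
  have hh0 : (0 : ℝ) < h := by exact_mod_cast hh
  set δ : ℝ := 1 / (2 * h * (h + 2)) with hδdef
  have hδ0 : 0 < δ := by positivity
  have hδ : δ * (2 * h * (h + 2)) = 1 := by rw [hδdef]; field_simp
  set γ : ℝ := (1 + δ) / (h + 1) with hγdef
  have hγ : γ * (h + 1) = 1 + δ := by rw [hγdef]; field_simp
  have hγ0 : 0 < γ := by positivity
  have hhδ : h * δ < 1 := by nlinarith
  have hγ1 : h * γ < 1 := by
    rw [hγdef, mul_div_assoc', div_lt_one (by positivity)]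
    nlinarith
  have hγ2 : 1 < (h + 2 : ℝ) * (1 - h * γ) := by
    have h1 : (1 - h * γ) * (h + 1) = 1 - h * δ := by
      have : h * γ * (h + 1) = h * (1 + δ) := by rw [mul_assoc, hγ]
      nlinarith
    have h2 : (h + 1 : ℝ) * 1 < (h + 1) * ((h + 2 : ℝ) * (1 - h * γ)) := by
      have h3 : (h + 1 : ℝ) * ((h + 2 : ℝ) * (1 - h * γ)) = (h + 2) * (1 - h * δ) := by
        rw [← h1]; ring
      rw [h3]
      nlinarith
    exact lt_of_mul_lt_mul_left h2 (by positivity)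
  have hγle : γ ≤ 1 := by
    have : (1 : ℝ) ≤ h := by exact_mod_cast hh
    nlinarith
  have hγh : 1 < (h + 1) * γ := by rw [mul_comm, hγ]; linarith
  set q := qbound h with hq
  set K := q * (h + 1) ^ 2 with hK
  have hq0 : 0 < q := by rw [hq]; unfold qbound; positivity
  -- choice of `M`
  obtain ⟨M, hM⟩ : ∃ M, mu γ {ω | ¬ QProp γ (h + 1) K {a | a ∈ rset γ ω ∧ M < a}} < 1 / 2 := by
    have h1 := Q_tendsto hγ0.le hγle (h + 1) K
    have h2 := (tendsto_order.1 h1).2 (1 / 2) (by norm_num)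
    exact h2.exists
  -- choice of `n0`
  obtain ⟨n1, hn1⟩ : ∃ n1, ∀ n ≥ n1, n ≠ 0 ∧ M + (h + 2 + q) ≤ Nat.log 2 n ∧
      ∀ i < q, mu γ (Bad γ h (h + 2 + i) n) ≤ ENNReal.ofReal (1 / (n : ℝ) ^ 2) := by
    have h1 : ∀ᶠ L : ℕ in atTop, ∀ i ∈ range q, 2 * Real.log ((2 : ℝ) ^ (L + 1)) ≤
        (((2 ^ ee γ (L - (h + 2 + i))).choose h : ℕ) : ℝ) / (h + 1) / cell γ L := by
      rw [eventually_all_finset]
      intro i _
      exact asym hγ0 hγle hγh (h + 2 + i)
    obtain ⟨L0, hL0⟩ := eventually_atTop.1 (h1.and (eventually_ge_atTop (M + (h + 2 + q))))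
    refine ⟨2 ^ L0, fun n hn => ?_⟩
    have hn0 : n ≠ 0 := by
      have : 0 < 2 ^ L0 := by positivity
      omega
    have hL : L0 ≤ Nat.log 2 n := Nat.le_log_of_pow_le (by norm_num) hn
    obtain ⟨h2, h3⟩ := hL0 _ hL
    refine ⟨hn0, h3, fun i hi => ?_⟩
    set L := Nat.log 2 n with hLdef
    have h4 := bad_prob hγ0.le hγle (j := L - (h + 2 + i)) (h := h) (L := L) (n := n)
      (Nat.pow_log_le_self 2 hn0) (Nat.lt_pow_succ_log_self (by norm_num) n)
      (low_level (by omega) (by omega)) hh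
      ((((2 ^ ee γ (L - (h + 2 + i))).choose h : ℕ) : ℝ) / (h + 1))
    refine le_trans (le_of_eq ?_) (h4.trans ?_)
    · rfl
    · apply ENNReal.ofReal_le_ofReal
      have h5 := h2 i (mem_range.2 hi)
      have hnpos : (0 : ℝ) < n := by exact_mod_cast Nat.pos_of_ne_zero hn0
      have h6 : Real.log n ≤ Real.log ((2 : ℝ) ^ (L + 1)) := by
        apply Real.log_le_log hnpos
        have := (Nat.lt_pow_succ_log_self (b := 2) (by norm_num) n).le
        exact_mod_cast this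
      calc Real.exp (-((((2 ^ ee γ (L - (h + 2 + i))).choose h : ℕ) : ℝ) / (h + 1) / cell γ L))
          ≤ Real.exp (-(2 * Real.log n)) := by
            apply Real.exp_le_exp.2
            linarith
        _ = 1 / (n : ℝ) ^ 2 := by
            rw [Real.exp_neg, one_div]
            congr 1
            rw [two_mul, Real.exp_add, Real.exp_log hnpos]
            ring
  obtain ⟨n0, hn0⟩ : ∃ n0, ∑' k : ℕ, (q : ℝ≥0∞) * ENNReal.ofReal (1 / ((k + (n1 + n0) : ℕ) : ℝ) ^ 2)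
      < 1 / 2 := by
    have hsum : ∑' k : ℕ, (q : ℝ≥0∞) * ENNReal.ofReal (1 / ((k : ℕ) : ℝ) ^ 2) ≠ ⊤ := by
      rw [ENNReal.tsum_mul_left]
      apply ENNReal.mul_ne_top (ENNReal.natCast_ne_top _)
      exact (Real.summable_one_div_nat_pow.2 (by norm_num)).tsum_ofReal_ne_top
    have h1 := ENNReal.tendsto_sum_nat_add
      (fun k : ℕ => (q : ℝ≥0∞) * ENNReal.ofReal (1 / ((k : ℕ) : ℝ) ^ 2)) hsum
    have h2 := (tendsto_order.1 h1).2 (1 / 2) (by norm_num)
    obtain ⟨m, hm⟩ := (h2.and (eventually_ge_atTop n1)).exists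
    refine ⟨m - n1, ?_⟩
    have h3 : n1 + (m - n1) = m := by omega
    rw [h3]
    exact hm.1
  -- the union of the bad events
  set B1 := {ω | ¬ QProp γ (h + 1) K {a | a ∈ rset γ ω ∧ M < a}} with hB1
  set B2 : Set (ℕ × ℕ → ℕ) := ⋃ k : ℕ, ⋃ i ∈ range q, Bad γ h (h + 2 + i) (k + (n1 + n0)) with hB2
  have hB2le : mu γ B2 < 1 / 2 := by
    refine lt_of_le_of_lt ((measure_iUnion_le _).trans (ENNReal.tsum_le_tsum fun k => ?_)) hn0
    refine (measure_biUnion_finset_le _ _).trans ?_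
    calc ∑ i ∈ range q, mu γ (Bad γ h (h + 2 + i) (k + (n1 + n0)))
        ≤ ∑ i ∈ range q, ENNReal.ofReal (1 / ((k + (n1 + n0) : ℕ) : ℝ) ^ 2) := by
          apply sum_le_sum
          intro i hi
          exact (hn1 _ (by omega)).2.2 i (mem_range.1 hi)
      _ = _ := by rw [sum_const, card_range, nsmul_eq_mul]
  have hlt : mu γ (B1 ∪ B2) < 1 := by
    calc mu γ (B1 ∪ B2) ≤ mu γ B1 + mu γ B2 := measure_union_le _ _
      _ < 1 / 2 + 1 / 2 := ENNReal.add_lt_add hM hB2le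
      _ = 1 := ENNReal.add_halves 1
  obtain ⟨ω, hω⟩ : ∃ ω, ω ∉ B1 ∪ B2 := by
    by_contra hcon
    push Not at hcon
    have : B1 ∪ B2 = Set.univ := Set.eq_univ_of_forall hcon
    rw [this, measure_univ] at hlt
    exact lt_irrefl _ hlt
  rw [Set.mem_union, not_or] at hω
  obtain ⟨hω1, hω2⟩ := hω
  set A : Set ℕ := {a | a ∈ rset γ ω ∧ M < a} with hA
  have hQ : QProp γ (h + 1) K A := by
    by_contra hcon
    exact hω1 hcon
  have hKhh : (h + 2) * h ≤ K := by
    have h1 : (h + 2) * h ≤ (h + 1) ^ 2 := by nlinarith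
    have h2 : (h + 1) ^ 2 ≤ q * (h + 1) ^ 2 := Nat.le_mul_of_pos_left _ hq0
    omega
  have hKP := Kj hγ0 hγ1 hγ2 (Nat.le_succ h) hKhh hQ
  refine ⟨{a | a ∈ A ∧ ¬ Coin A h a}, ?_, ?_, n1 + n0, ?_⟩
  · rintro a ⟨⟨-, ha⟩, -⟩
    omega
  · intro n
    by_contra hcon
    push Not at hcon
    have h1 : ((h + 1 : ℕ) : ℕ∞) ≤ (reps {a | a ∈ A ∧ ¬ Coin A h a} h n).encard := by
      have := Order.add_one_le_of_lt hcon
      exact_mod_cast this
    obtain ⟨t, ht1, ht2⟩ := Set.exists_subset_encard_eq h1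
    have hfin : t.Finite := by
      apply Set.finite_of_encard_eq_coe ht2
    obtain ⟨𝒮, rfl⟩ := hfin.exists_finset_coe
    have hcard : 𝒮.card = h + 1 := by
      rw [Set.encard_coe_eq_coe_finsetCard] at ht2
      exact_mod_cast ht2
    have hne : 𝒮.Nonempty := card_pos.1 (by omega)
    obtain ⟨R, hR⟩ := hne
    have hRr := ht1 hR
    obtain ⟨a, ha⟩ := Multiset.card_pos_iff_exists_mem.1 (show 0 < R.card by
      rw [hRr.1]; exact hh)
    apply (hRr.2.2 a ha).2
    refine ⟨n, 𝒮, ?_, hcard, mem_supp.2 ⟨R, hR, ha⟩⟩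
    intro R' hR'
    have h2 := ht1 hR'
    exact ⟨h2.1, h2.2.1, fun b hb => (h2.2.2 b hb).1⟩
  · intro n hn
    obtain ⟨hne, hlog, -⟩ := hn1 n (by omega)
    have hnb : ∀ i < q, ω ∉ Bad γ h (h + 2 + i) n := by
      intro i hi hcon
      apply hω2
      rw [hB2, Set.mem_iUnion]
      refine ⟨n - (n1 + n0), ?_⟩
      rw [Set.mem_iUnion₂]
      refine ⟨i, mem_range.2 hi, ?_⟩
      have : n - (n1 + n0) + (n1 + n0) = n := by omega
      rw [this]
      exact hcon
    obtain ⟨V, hVq, hV⟩ := many_reps hγ0.le hγle hh hγ1 hγ2 (hKP h le_rfl) hne hlog hnb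
    by_contra hcon
    have h1 : V.card < q := by
      apply few_bad hh hδ0 hδ.le hγ hγ1 hγ2 hQ le_rfl n V
      intro v hv
      obtain ⟨P, hP, hvP, hPv⟩ := hV v hv
      refine ⟨P, hP, hvP, hPv, ?_⟩
      by_contra hno
      push Not at hno
      apply hcon
      exact ⟨P, hP.1, hP.2.1, fun a ha => ⟨hP.2.2 a ha, hno a ha⟩⟩
    omega

end Pool.Agent.H65.BHG
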