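import Pool.Agent.H65.BHG.Lin

/-!
Pivots of the relations satisfied by an increasing tuple.
-/

namespace Pool.Agent.H65.BHG

open Finset Submodule

/-- Integer vectors with entries bounded by `H`. -/
noncomputable def box (e H : ℕ) : Finset (Fin e → ℤ) := Fintype.piFinset fun _ => Finset.Icc (-(H : ℤ)) H

/-- Rational span of a set of integer vectors. -/
def rspan {e : ℕ} (𝓡 : Finset (Fin e → ℤ)) : Submodule ℚ (Fin e → ℚ) :=
  span ℚ {v | ∃ c ∈ 𝓡, v = fun i => (c i : ℚ)}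

open Classical in
/-- The pivots. -/
noncomputable def pivs {e : ℕ} (𝓡 : Finset (Fin e → ℤ)) : Finset (Fin e) :=
  univ.filter fun l => ∃ v ∈ rspan 𝓡, v l ≠ 0 ∧ ∀ i, l < i → v i = 0

theorem rspan_zero {e : ℕ} {𝓡 : Finset (Fin e → ℤ)} {a : Fin e → ℕ}
    (ha : ∀ c ∈ 𝓡, ∑ i, c i * (a i : ℤ) = 0) {v : Fin e → ℚ} (hv : v ∈ rspan 𝓡) :
    ∑ i, v i * (a i : ℚ) = 0 := by
  let f : (Fin e → ℚ) →ₗ[ℚ] ℚ := ∑ i : Fin e, (a i : ℚ) • (LinearMap.proj i : (Fin e → ℚ) →ₗ[ℚ] ℚ)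
  have hf : ∀ v, f v = ∑ i, v i * (a i : ℚ) := by
    intro v
    simp [f, mul_comm]
  have h1 : rspan 𝓡 ≤ LinearMap.ker f := by
    unfold rspan
    rw [span_le]
    rintro _ ⟨c, hc, rfl⟩
    change f _ = 0
    rw [hf]
    have := ha c hc
    exact_mod_cast this
  have h2 : f v = 0 := h1 hv
  rw [← hf, h2]

/-- A pivot coordinate is determined by the lower ones. -/
theorem pivot_det {e : ℕ} {𝓡 : Finset (Fin e → ℤ)} {a a' : Fin e → ℕ}
    (ha : ∀ c ∈ 𝓡, ∑ i, c i * (a i : ℤ) = 0) (ha' : ∀ c ∈ 𝓡, ∑ i, c i * (a' i : ℤ) = 0)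
    {l : Fin e} (hl : l ∈ pivs 𝓡) (hlow : ∀ i < l, a i = a' i) : a l = a' l := by
  classical
  rw [pivs, mem_filter] at hl
  obtain ⟨-, v, hv, hvl, hvup⟩ := hl
  have h1 := rspan_zero ha hv
  have h2 := rspan_zero ha' hv
  have h3 : ∑ i, v i * ((a i : ℚ) - a' i) = 0 := by
    simp only [mul_sub, sum_sub_distrib]
    rw [h1, h2, sub_zero]
  have h4 : ∑ i, v i * ((a i : ℚ) - a' i) = v l * ((a l : ℚ) - a' l) := by
    apply sum_eq_single_of_mem l (mem_univ _)
    intro i _ hne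
    rcases lt_or_gt_of_ne hne with h | h
    · rw [hlow i h, sub_self, mul_zero]
    · rw [hvup i h, zero_mul]
  rw [h4] at h3
  rcases mul_eq_zero.1 h3 with h | h
  · exact absurd h hvl
  · have : (a l : ℚ) = a' l := by linarith
    exact_mod_cast this

theorem sum_order {E : Finset ℕ} {e : ℕ} (he : E.card = e) {M : Type*} [AddCommMonoid M]
    (f : ℕ → M) : ∑ i : Fin e, f (E.orderEmbOfFin he i) = ∑ x ∈ E, f x := by
  conv_rhs => rw [← Finset.map_orderEmbOfFin_univ E he]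
  rw [sum_map]
  rfl

/-- The rank on an upper part is at most the number of pivots there. -/
theorem rk_le_pivs {H e : ℕ} {E : Finset ℕ} (he : E.card = e) (m : Fin e) :
    rk (span ℚ (rel H E)) (up E (E.orderEmbOfFin he m)) ≤
      ((pivs ((box e H).filter fun c => ∑ i, c i * ((E.orderEmbOfFin he i : ℕ) : ℤ) = 0)).filter
        (m ≤ ·)).card := by
  classical
  set a := E.orderEmbOfFin he with ha
  set 𝓡 := (box e H).filter fun c => ∑ i, c i * ((a i : ℕ) : ℤ) = 0 with h𝓡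
  set U := up E (a m) with hU
  set Pm := (pivs 𝓡).filter (m ≤ ·) with hPm
  have hmemU : ∀ l : Fin e, m ≤ l → a l ∈ U := by
    intro l hl
    rw [hU, up, mem_filter]
    exact ⟨orderEmbOfFin_mem E he l, a.monotone hl⟩
  have hUmem : ∀ u ∈ U, ∃ l : Fin e, m ≤ l ∧ a l = u := by
    intro u hu
    rw [hU, up, mem_filter] at hu
    have : u ∈ Set.range a := by
      rw [ha, range_orderEmbOfFin]; exact hu.1
    obtain ⟨l, rfl⟩ := this
    exact ⟨l, a.le_iff_le.1 hu.2, rfl⟩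
  let g : (U → ℚ) →ₗ[ℚ] (Pm → ℚ) := LinearMap.funLeft ℚ ℚ
    (fun l : Pm => (⟨a l, hmemU l (mem_filter.1 l.2).2⟩ : U))
  set M := (span ℚ (rel H E)).map (rs U) with hM
  have hcomp : ∀ v ∈ span ℚ (rel H E), (fun i => v (a i)) ∈ rspan 𝓡 := by
    intro v hv
    let L : (ℕ → ℚ) →ₗ[ℚ] (Fin e → ℚ) := LinearMap.funLeft ℚ ℚ (fun i => (a i : ℕ))
    have h1 : span ℚ (rel H E) ≤ (rspan 𝓡).comap L := by
      rw [span_le]
      rintro _ ⟨c, hc1, hc2, hc3, rfl⟩
      apply subset_span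
      refine ⟨fun i => c (a i), ?_, rfl⟩
      rw [h𝓡, mem_filter]
      constructor
      · rw [box, Fintype.mem_piFinset]
        intro i
        rw [mem_Icc]
        exact abs_le.1 (hc1 (a i))
      · rw [← hc3]
        exact sum_order he (fun x => c x * (x : ℤ))
    exact h1 hv
  have hinj : Function.Injective (g.comp M.subtype) := by
    rw [← LinearMap.ker_eq_bot, LinearMap.ker_eq_bot']
    rintro ⟨w, hw⟩ hgw
    obtain ⟨v, hv, rfl⟩ := hw
    by_contra hne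
    have h1 : ∃ u : U, v u ≠ 0 := by
      by_contra hcon
      push Not at hcon
      apply hne
      ext u
      exact hcon u
    obtain ⟨u, hu⟩ := h1
    obtain ⟨l0, hl0, hl0u⟩ := hUmem u u.2
    have hTne : (univ.filter fun l : Fin e => m ≤ l ∧ v (a l) ≠ 0).Nonempty :=
      ⟨l0, by rw [mem_filter]; exact ⟨mem_univ _, hl0, by rw [hl0u]; exact hu⟩⟩
    set l := (univ.filter fun l : Fin e => m ≤ l ∧ v (a l) ≠ 0).max' hTne with hl
    have hl1 := max'_mem _ hTne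
    rw [← hl, mem_filter] at hl1
    obtain ⟨-, hml, hvl⟩ := hl1
    have hlP : l ∈ Pm := by
      rw [hPm, mem_filter, pivs, mem_filter]
      refine ⟨⟨mem_univ _, _, hcomp v hv, hvl, ?_⟩, hml⟩
      intro i hi
      by_contra hcon
      have := le_max' (univ.filter fun l : Fin e => m ≤ l ∧ v (a l) ≠ 0) i
        (by rw [mem_filter]; exact ⟨mem_univ _, hml.trans hi.le, hcon⟩)
      exact absurd this (not_le.2 hi)
    have h2 := congrFun hgw ⟨l, hlP⟩
    exact hvl h2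
  have h3 := LinearMap.finrank_le_finrank_of_injective hinj
  simpa [rk] using h3

/-- Description of the failure of the rank property. -/
theorem not_QProp {γ : ℝ} {H K : ℕ} {A : Set ℕ} (hQ : ¬ QProp γ H K A) :
    ∃ e, 1 ≤ e ∧ e ≤ K ∧ ∃ 𝓡 ∈ (box e H).powerset,
      (∀ m : Fin e, γ * ((e : ℝ) - m) < ((pivs 𝓡).filter (m ≤ ·)).card) ∧
      ∃ a : Fin e → ℕ, StrictMono a ∧ (∀ l, a l ∈ A) ∧ ∀ c ∈ 𝓡, ∑ i, c i * (a i : ℤ) = 0 := by
  classical
  unfold QProp at hQ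
  push Not at hQ
  obtain ⟨E, hne, hEA, hEK, hE⟩ := hQ
  refine ⟨E.card, card_pos.2 hne, hEK,
    (box E.card H).filter fun c => ∑ i, c i * ((E.orderEmbOfFin rfl i : ℕ) : ℤ) = 0,
    mem_powerset.2 (filter_subset _ _), ?_, ⟨E.orderEmbOfFin rfl,
      (E.orderEmbOfFin rfl).strictMono, fun l => hEA _ (orderEmbOfFin_mem E rfl l),
      fun c hc => (mem_filter.1 hc).2⟩⟩
  intro m
  have h1 := rk_le_pivs (H := H) (E := E) rfl m
  have h2 : up E (E.orderEmbOfFin rfl m) = (Finset.Ici m).map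
      (E.orderEmbOfFin rfl).toEmbedding := by
    ext u
    rw [up, mem_filter, mem_map]
    constructor
    · rintro ⟨h3, h4⟩
      have : u ∈ Set.range (E.orderEmbOfFin rfl) := by rw [range_orderEmbOfFin]; exact h3
      obtain ⟨l, rfl⟩ := this
      exact ⟨l, mem_Ici.2 ((E.orderEmbOfFin rfl).le_iff_le.1 h4), rfl⟩
    · rintro ⟨l, hl, rfl⟩
      exact ⟨orderEmbOfFin_mem E rfl l, (E.orderEmbOfFin rfl).monotone (mem_Ici.1 hl)⟩
  have h3 : (up E (E.orderEmbOfFin rfl m)).card = E.card - m := by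
    rw [h2, card_map, Fin.card_Ici]
  have h4 := hE (E.orderEmbOfFin rfl m) ⟨_, by
    rw [up, mem_filter]
    exact ⟨orderEmbOfFin_mem E rfl m, le_rfl⟩⟩
  rw [h3, Nat.cast_sub m.2.le] at h4
  refine lt_of_lt_of_le h4 ?_
  exact_mod_cast h1

end Pool.Agent.H65.BHG
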