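import Pool.Agent.H65.BHG.Count
import Pool.Agent.H65.BHG.Pivot

/-!
The random set: one element in each cell, and the probability of the rank property.
-/

namespace Pool.Agent.H65.BHG

open Finset MeasureTheory Filter
open scoped ENNReal Topology

noncomputable section

/-- Exponent of the number of cells at level `j`. -/
def ee (γ : ℝ) (j : ℕ) : ℕ := ⌊γ * j⌋₊

/-- Length of the cells at level `j`. -/
def cell (γ : ℝ) (j : ℕ) : ℕ := 2 ^ (j - ee γ j)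

theorem cell_pos (γ : ℝ) (j : ℕ) : 0 < cell γ j := by unfold cell; positivity

theorem range_cell_nonempty (γ : ℝ) (j : ℕ) : (range (cell γ j)).Nonempty :=
  ⟨0, mem_range.2 (cell_pos γ j)⟩

/-- The coordinate (level, cell index) of a number. -/
def crd (γ : ℝ) (v : ℕ) : ℕ × ℕ := (Nat.log 2 v, v / cell γ (Nat.log 2 v))

/-- The set attached to a choice of one element in each cell. -/
def rset (γ : ℝ) (ω : ℕ × ℕ → ℕ) : Set ℕ :=
  {v | 0 < v ∧ ω (crd γ v) % cell γ (Nat.log 2 v) = v % cell γ (Nat.log 2 v)}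

/-- Uniform measure on the residues of a cell. -/
def mu1 (γ : ℝ) (i : ℕ × ℕ) : Measure ℕ :=
  (PMF.uniformOfFinset (range (cell γ i.1)) (range_cell_nonempty γ i.1)).toMeasure

instance (γ : ℝ) (i : ℕ × ℕ) : IsProbabilityMeasure (mu1 γ i) := by
  unfold mu1; infer_instance

/-- The product measure. -/
def mu (γ : ℝ) : Measure (ℕ × ℕ → ℕ) := Measure.infinitePi (mu1 γ)

instance (γ : ℝ) : IsProbabilityMeasure (mu γ) := by
  unfold mu; infer_instance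

open Classical in
theorem mu1_apply (γ : ℝ) (i : ℕ × ℕ) (T : Set ℕ) :
    mu1 γ i T = (((range (cell γ i.1)).filter (· ∈ T)).card : ℝ≥0∞) / (cell γ i.1 : ℝ≥0∞) := by
  unfold mu1
  rw [PMF.toMeasure_uniformOfFinset_apply _ _ (MeasurableSet.of_discrete), card_range]

theorem mu_box (γ : ℝ) (s : Finset (ℕ × ℕ)) (t : ℕ × ℕ → Set ℕ) :
    mu γ (Set.pi s t) = ∏ i ∈ s, mu1 γ i (t i) := by
  unfold mu
  rw [Measure.infinitePi_pi _ (fun i _ => MeasurableSet.of_discrete)]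

/-- The probability weight of a number. -/
def wt (γ : ℝ) (v : ℕ) : ℝ≥0∞ := ((cell γ (Nat.log 2 v) : ℕ) : ℝ≥0∞)⁻¹

theorem mu1_singleton_le (γ : ℝ) (i : ℕ × ℕ) (T : Set ℕ) (x : ℕ)
    (hT : ∀ a ∈ T, a % cell γ i.1 = x) : mu1 γ i T ≤ ((cell γ i.1 : ℕ) : ℝ≥0∞)⁻¹ := by
  classical
  rw [mu1_apply, ENNReal.div_eq_inv_mul]
  have h1 : ((range (cell γ i.1)).filter (· ∈ T)).card ≤ 1 := by
    rw [card_le_one]
    intro a ha b hb
    have ha' := hT a (mem_filter.1 ha).2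
    have hb' := hT b (mem_filter.1 hb).2
    rw [Nat.mod_eq_of_lt (mem_range.1 (mem_filter.1 ha).1)] at ha'
    rw [Nat.mod_eq_of_lt (mem_range.1 (mem_filter.1 hb).1)] at hb'
    rw [ha', hb']
  calc ((cell γ i.1 : ℕ) : ℝ≥0∞)⁻¹ * (((range (cell γ i.1)).filter (· ∈ T)).card : ℝ≥0∞)
      ≤ ((cell γ i.1 : ℕ) : ℝ≥0∞)⁻¹ * 1 := by gcongr; exact_mod_cast h1
    _ = _ := mul_one _

/-- Probability that given numbers belong to the random set. -/
theorem prob_subset (γ : ℝ) (V : Finset ℕ) :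
    mu γ {ω | ∀ v ∈ V, v ∈ rset γ ω} ≤ ∏ v ∈ V, wt γ v := by
  classical
  set t : ℕ × ℕ → Set ℕ := fun i => {x | ∀ v ∈ V, crd γ v = i →
    x % cell γ (Nat.log 2 v) = v % cell γ (Nat.log 2 v)} with ht
  have hsub : {ω | ∀ v ∈ V, v ∈ rset γ ω} ⊆ Set.pi (V.image (crd γ) : Finset (ℕ × ℕ)) t := by
    intro ω hω i _ v hv hvi
    rw [← hvi]
    exact (hω v hv).2
  refine (measure_mono hsub).trans ?_
  rw [mu_box]
  by_cases hinj : Set.InjOn (crd γ) (V : Set ℕ)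
  · rw [prod_image hinj]
    apply prod_le_prod'
    intro v hv
    exact mu1_singleton_le γ (crd γ v) (t (crd γ v)) (v % cell γ (Nat.log 2 v))
      (fun x hx => hx v hv rfl)
  · -- two numbers in one cell
    unfold Set.InjOn at hinj
    push Not at hinj
    obtain ⟨v, hv, v', hv', hvv', hne⟩ := hinj
    have h0 : mu1 γ (crd γ v) (t (crd γ v)) = 0 := by
      have : t (crd γ v) = ∅ := by
        ext x
        simp only [Set.mem_empty_iff_false, iff_false]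
        intro hx
        have e1 := hx v hv rfl
        have e2 := hx v' hv' hvv'.symm
        apply hne
        have e3 : Nat.log 2 v = Nat.log 2 v' := congrArg Prod.fst hvv'
        have e4 : v / cell γ (Nat.log 2 v) = v' / cell γ (Nat.log 2 v') :=
          congrArg Prod.snd hvv'
        rw [← e3] at e2 e4
        rw [← Nat.div_add_mod v (cell γ (Nat.log 2 v)),
          ← Nat.div_add_mod v' (cell γ (Nat.log 2 v)), e4, ← e1, ← e2]
      rw [this, measure_empty]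
    rw [prod_eq_zero (mem_image_of_mem _ hv) h0]
    exact zero_le

theorem ee_le {γ : ℝ} (_hγ0 : 0 ≤ γ) (hγ1 : γ ≤ 1) (j : ℕ) : ee γ j ≤ j := by
  unfold ee
  have h1 : γ * j ≤ j := by
    have : (0 : ℝ) ≤ j := by positivity
    nlinarith
  calc ⌊γ * j⌋₊ ≤ ⌊(j : ℝ)⌋₊ := Nat.floor_le_floor h1
    _ = j := Nat.floor_natCast j

theorem cell_real {γ : ℝ} (hγ0 : 0 ≤ γ) (hγ1 : γ ≤ 1) (j : ℕ) :
    ((cell γ j : ℕ) : ℝ) = (2 : ℝ) ^ ((j : ℝ) - ee γ j) := by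
  unfold cell
  rw [Nat.cast_pow, ← Real.rpow_natCast, Nat.cast_sub (ee_le hγ0 hγ1 j)]
  norm_num

theorem wt_le {γ : ℝ} (hγ0 : 0 ≤ γ) (hγ1 : γ ≤ 1) (x : ℕ) (hx : 1 ≤ x) :
    wt γ x ≤ ENNReal.ofReal (2 * (x : ℝ) ^ (γ - 1)) := by
  unfold wt
  set j := Nat.log 2 x with hj
  have hx0 : (0 : ℝ) < x := by exact_mod_cast hx
  have h1 : (x : ℝ) ≤ 2 ^ ((j : ℝ) + 1) := by
    have := (Nat.lt_pow_succ_log_self (b := 2) (by norm_num) x).le
    rw [← hj] at this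
    have h2 : (x : ℝ) ≤ (2 : ℝ) ^ (j + 1) := by exact_mod_cast this
    have h3 : (2 : ℝ) ^ ((j : ℝ) + 1) = (2 : ℝ) ^ (j + 1) := by
      rw [← Real.rpow_natCast]; push_cast; rfl
    rw [h3]; exact h2
  have h2 : (x : ℝ) ^ (1 - γ) ≤ 2 * (cell γ j : ℕ) := by
    rw [cell_real hγ0 hγ1]
    calc (x : ℝ) ^ (1 - γ) ≤ (2 ^ ((j : ℝ) + 1)) ^ (1 - γ) :=
          Real.rpow_le_rpow hx0.le h1 (by linarith)
      _ = 2 ^ (((j : ℝ) + 1) * (1 - γ)) := by rw [← Real.rpow_mul (by norm_num)]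
      _ ≤ 2 ^ (1 + ((j : ℝ) - ee γ j)) := by
          apply Real.rpow_le_rpow_of_exponent_le (by norm_num)
          have h3 : (ee γ j : ℝ) ≤ γ * j := Nat.floor_le (by positivity)
          nlinarith
      _ = 2 * 2 ^ ((j : ℝ) - ee γ j) := by
          rw [Real.rpow_add (by norm_num), Real.rpow_one]
  have hc : (0 : ℝ) < (cell γ j : ℕ) := by exact_mod_cast cell_pos γ j
  rw [← ENNReal.ofReal_natCast, ← ENNReal.ofReal_inv_of_pos hc]
  apply ENNReal.ofReal_le_ofReal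
  have h3 : (x : ℝ) ^ (γ - 1) = ((x : ℝ) ^ (1 - γ))⁻¹ := by
    rw [← Real.rpow_neg hx0.le]; congr 1; ring
  have hxp : 0 < (x : ℝ) ^ (1 - γ) := Real.rpow_pos_of_pos hx0 _
  rw [h3, inv_eq_one_div, inv_eq_one_div, mul_one_div, div_le_div_iff₀ hc hxp]
  linarith

/-- The event attached to a set of relations. -/
def evt (γ : ℝ) (e : ℕ) (𝓡 : Finset (Fin e → ℤ)) (M : ℕ) : Set (ℕ × ℕ → ℕ) :=
  {ω | ∃ a : Fin e → ℕ, StrictMono a ∧ (∀ l, M < a l ∧ a l ∈ rset γ ω) ∧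
    ∀ c ∈ 𝓡, ∑ i, c i * (a i : ℤ) = 0}

theorem evt_tendsto {γ : ℝ} (hγ0 : 0 ≤ γ) (hγ1 : γ ≤ 1) {e : ℕ} (he : 1 ≤ e)
    (𝓡 : Finset (Fin e → ℤ))
    (hs : ∀ m : Fin e, γ * ((e : ℝ) - m) < ((pivs 𝓡).filter (m ≤ ·)).card) :
    Tendsto (fun M => mu γ (evt γ e 𝓡 M)) atTop (𝓝 0) := by
  classical
  obtain ⟨C, hC0, hC⟩ := count (γ := γ) (w := wt γ) (wt_le hγ0 hγ1) e (pivs 𝓡) hs
  have hneg : γ * e - (pivs 𝓡).card < 0 := by
    have := hs ⟨0, he⟩
    rw [filter_true_of_mem (fun l _ => by rw [Fin.le_def]; exact Nat.zero_le _)] at this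
    simp only [Nat.cast_zero, sub_zero] at this
    linarith
  have hbound : ∀ M, 1 ≤ M → mu γ (evt γ e 𝓡 M) ≤
      ENNReal.ofReal (C * (M : ℝ) ^ (γ * e - (pivs 𝓡).card)) := by
    intro M hM
    set S : Set (Fin e → ℕ) := {a | StrictMono a ∧ (∀ l, M < a l) ∧
      ∀ c ∈ 𝓡, ∑ i, c i * (a i : ℤ) = 0} with hS
    have h1 : evt γ e 𝓡 M ⊆ ⋃ a : Fin e → ℕ, {ω | a ∈ S ∧ ∀ l, a l ∈ rset γ ω} := by
      rintro ω ⟨a, ha1, ha2, ha3⟩
      rw [Set.mem_iUnion]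
      exact ⟨a, ⟨ha1, fun l => (ha2 l).1, ha3⟩, fun l => (ha2 l).2⟩
    refine (measure_mono h1).trans ((measure_iUnion_le _).trans ?_)
    refine le_trans (ENNReal.tsum_le_tsum fun a => ?_) (hC M hM S (fun a ha => ha.1)
      (fun a ha => ha.2.1) (fun l hl a ha a' ha' hlow => pivot_det ha.2.2 ha'.2.2 hl hlow))
    by_cases ha : a ∈ S
    · rw [Set.indicator_of_mem ha]
      have h2 : {ω | a ∈ S ∧ ∀ l, a l ∈ rset γ ω} ⊆
          {ω | ∀ v ∈ univ.image a, v ∈ rset γ ω} := by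
        rintro ω ⟨-, hω⟩ v hv
        obtain ⟨l, -, rfl⟩ := mem_image.1 hv
        exact hω l
      refine (measure_mono h2).trans ((prob_subset γ _).trans ?_)
      rw [prod_image (fun x _ y _ h => ha.1.injective h)]
    · rw [Set.indicator_of_notMem ha]
      have : {ω : ℕ × ℕ → ℕ | a ∈ S ∧ ∀ l, a l ∈ rset γ ω} = ∅ := by
        ext ω; simp [ha]
      rw [this, measure_empty]
  have hlim : Tendsto (fun M : ℕ => ENNReal.ofReal (C * (M : ℝ) ^ (γ * e - (pivs 𝓡).card)))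
      atTop (𝓝 0) := by
    rw [← ENNReal.ofReal_zero]
    apply ENNReal.tendsto_ofReal
    have h1 : Tendsto (fun M : ℕ => (M : ℝ) ^ (-((pivs 𝓡).card - γ * e))) atTop (𝓝 0) :=
      (tendsto_rpow_neg_atTop (by linarith)).comp tendsto_natCast_atTop_atTop
    have h2 := h1.const_mul C
    rw [mul_zero] at h2
    refine h2.congr fun M => ?_
    congr 2
    ring
  refine tendsto_of_tendsto_of_tendsto_of_le_of_le' tendsto_const_nhds hlim
    (Eventually.of_forall fun M => zero_le) ?_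
  filter_upwards [eventually_ge_atTop 1] with M hM
  exact hbound M hM

/-- The rank property holds beyond `M` with probability tending to one. -/
theorem Q_tendsto {γ : ℝ} (hγ0 : 0 ≤ γ) (hγ1 : γ ≤ 1) (H K : ℕ) :
    Tendsto (fun M => mu γ {ω | ¬ QProp γ H K {a | a ∈ rset γ ω ∧ M < a}}) atTop (𝓝 0) := by
  classical
  set good : (e : ℕ) → Finset (Fin e → ℤ) → Prop := fun e 𝓡 =>
    1 ≤ e ∧ ∀ m : Fin e, γ * ((e : ℝ) - m) < ((pivs 𝓡).filter (m ≤ ·)).card with hgood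
  have hsum : Tendsto (fun M => ∑ e ∈ range (K + 1), ∑ 𝓡 ∈ (box e H).powerset,
      (if good e 𝓡 then mu γ (evt γ e 𝓡 M) else 0)) atTop (𝓝 0) := by
    have h00 : ∑ e ∈ range (K + 1), ∑ _𝓡 ∈ (box e H).powerset, (0 : ℝ≥0∞) = 0 := by simp
    refine le_trans ?_ (le_of_eq (congrArg 𝓝 h00))
    apply tendsto_finsetSum
    intro e _
    apply tendsto_finsetSum
    intro 𝓡 _
    by_cases h : good e 𝓡
    · simp only [if_pos h]
      exact evt_tendsto hγ0 hγ1 h.1 𝓡 h.2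
    · simp only [if_neg h]
      exact (tendsto_const_nhds : Tendsto (fun _ : ℕ => (0 : ℝ≥0∞)) atTop (𝓝 0))
  refine tendsto_of_tendsto_of_tendsto_of_le_of_le (tendsto_const_nhds (x := (0 : ℝ≥0∞))) hsum
    (fun M => zero_le) (fun M => ?_)
  have h1 : {ω | ¬ QProp γ H K {a | a ∈ rset γ ω ∧ M < a}} ⊆
      ⋃ e ∈ range (K + 1), ⋃ 𝓡 ∈ (box e H).powerset,
        (if good e 𝓡 then evt γ e 𝓡 M else ∅) := by
    intro ω hω
    obtain ⟨e, he1, heK, 𝓡, h𝓡, hs, a, ha1, ha2, ha3⟩ := not_QProp hω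
    rw [Set.mem_iUnion₂]
    refine ⟨e, mem_range.2 (by omega), ?_⟩
    rw [Set.mem_iUnion₂]
    refine ⟨𝓡, h𝓡, ?_⟩
    rw [if_pos ⟨he1, hs⟩]
    exact ⟨a, ha1, fun l => ⟨(ha2 l).2, (ha2 l).1⟩, ha3⟩
  refine (measure_mono h1).trans ((measure_biUnion_finset_le _ _).trans ?_)
  apply sum_le_sum
  intro e _
  refine (measure_biUnion_finset_le _ _).trans ?_
  apply sum_le_sum
  intro 𝓡 _
  split_ifs
  · exact le_rfl
  · rw [measure_empty]

end

end Pool.Agent.H65.BHG
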