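import Pool.Agent.H65.BHG.Lin
import Pool.Agent.H65.BHG.Core

/-!
Structure of coincidences of sums in a set with the rank property.
-/

namespace Pool.Agent.H65.BHG

open Finset Submodule

/-- The multiplicity vector restricted to `U`. -/
def rv (U : Finset ℕ) (R : Multiset ℕ) : U → ℕ := fun u => R.count (u : ℕ)

/-- Span of the differences of a family. -/
def Df (𝒮 : Finset (Multiset ℕ)) : Submodule ℚ (ℕ → ℚ) :=
  span ℚ {w | ∃ R ∈ 𝒮, ∃ R' ∈ 𝒮, w = cv R - cv R'}

theorem rs_cv (U : Finset ℕ) (R : Multiset ℕ) : rs U (cv R) = qv (rv U R) := rfl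

theorem dspan_eq (U : Finset ℕ) (𝒮 : Finset (Multiset ℕ)) :
    dspan (𝒮.image (rv U)) = (Df 𝒮).map (rs U) := by
  classical
  unfold dspan Df
  rw [map_span]
  congr 1
  ext w
  simp only [Set.mem_ofPred_eq, mem_image, Set.mem_image]
  constructor
  · rintro ⟨_, ⟨R, hR, rfl⟩, _, ⟨R', hR', rfl⟩, rfl⟩
    exact ⟨cv R - cv R', ⟨R, hR, R', hR', rfl⟩, by rw [map_sub]; rfl⟩
  · rintro ⟨_, ⟨R, hR, R', hR', rfl⟩, rfl⟩
    exact ⟨_, ⟨R, hR, rfl⟩, _, ⟨R', hR', rfl⟩, by rw [map_sub]; rfl⟩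

theorem sum_rv_le (U : Finset ℕ) (R : Multiset ℕ) : ∑ u, rv U R u ≤ R.card := by
  classical
  have h1 : ∑ u, rv U R u = ∑ u ∈ U, R.count u := by
    rw [← Finset.sum_coe_sort U (fun u => R.count u)]
    rfl
  rw [h1]
  calc ∑ u ∈ U, R.count u ≤ ∑ u ∈ U ∪ R.toFinset, R.count u :=
        sum_le_sum_of_subset subset_union_left
    _ = R.card := by
        apply Multiset.sum_count_eq_card
        intro a ha
        exact mem_union_right _ (Multiset.mem_toFinset.2 ha)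

/-- The part in `U`, number of elements. -/
theorem card_filter_mem (U : Finset ℕ) (R : Multiset ℕ) :
    (R.filter (· ∈ U)).card = ∑ u, rv U R u := by
  classical
  have h1 : ∑ u, rv U R u = ∑ u ∈ U, R.count u := by
    rw [← Finset.sum_coe_sort U (fun u => R.count u)]
    rfl
  rw [h1]
  have h2 : ∑ u ∈ U, (R.filter (· ∈ U)).count u = (R.filter (· ∈ U)).card := by
    apply Multiset.sum_count_eq_card
    intro a ha
    exact (Multiset.mem_filter.1 ha).2
  rw [← h2]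
  apply sum_congr rfl
  intro u hu
  rw [Multiset.count_filter_of_pos hu]

theorem filter_eq_of_rv {U : Finset ℕ} {R R' : Multiset ℕ} (h : rv U R = rv U R') :
    R.filter (· ∈ U) = R'.filter (· ∈ U) := by
  classical
  ext a
  by_cases ha : a ∈ U
  · rw [Multiset.count_filter_of_pos ha, Multiset.count_filter_of_pos ha]
    exact congrFun h ⟨a, ha⟩
  · rw [Multiset.count_filter_of_neg ha, Multiset.count_filter_of_neg ha]

/-- The bound on the number of representations with `j` summands. -/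
def KP (A : Set ℕ) (γ : ℝ) (j : ℕ) : Prop :=
  ∀ n, ∀ 𝒮 : Finset (Multiset ℕ), (∀ R ∈ 𝒮, R ∈ reps A j n) → (𝒮.card : ℝ) * (1 - j * γ) ≤ 1

/-- Multiplicity bound for a common part. -/
theorem mult_bound {A : Set ℕ} {γ : ℝ} {j n : ℕ} {𝒮 : Finset (Multiset ℕ)}
    (h𝒮 : ∀ R ∈ 𝒮, R ∈ reps A j n) (U : Finset ℕ) {C : U → ℕ}
    (hK : KP A γ (j - ∑ u, C u)) (hC : C ∈ 𝒮.image (rv U)) :
    (((𝒮.filter fun R => rv U R = C).card : ℕ) : ℝ) * (1 - ((j - ∑ u, C u : ℕ) : ℝ) * γ) ≤ 1 := by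
  classical
  obtain ⟨R0, hR0, rfl⟩ := mem_image.1 hC
  set 𝒮' := 𝒮.filter fun R => rv U R = rv U R0 with h𝒮'
  have hinj : Set.InjOn (fun R : Multiset ℕ => R.filter (· ∉ U)) (𝒮' : Set (Multiset ℕ)) := by
    intro R hR R' hR' h
    have e1 : rv U R = rv U R0 := (mem_filter.1 hR).2
    have e2 : rv U R' = rv U R0 := (mem_filter.1 hR').2
    have e3 := filter_eq_of_rv (e1.trans e2.symm)
    rw [← Multiset.filter_add_not (· ∈ U) R, ← Multiset.filter_add_not (· ∈ U) R', e3]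
    congr 1
  have hcard : (𝒮'.image fun R : Multiset ℕ => R.filter (· ∉ U)).card = 𝒮'.card :=
    card_image_of_injOn hinj
  rw [← hcard]
  apply hK (n - (R0.filter (· ∈ U)).sum)
  intro T hT
  obtain ⟨R, hR, rfl⟩ := mem_image.1 hT
  have e1 : rv U R = rv U R0 := (mem_filter.1 hR).2
  obtain ⟨hc, hs, hA⟩ := h𝒮 R (mem_filter.1 hR).1
  have e3 := filter_eq_of_rv e1
  have e4 := Multiset.filter_add_not (· ∈ U) R
  have e5 := congrArg Multiset.card e4
  have e6 := congrArg Multiset.sum e4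
  rw [Multiset.card_add, card_filter_mem, e1, hc] at e5
  rw [Multiset.sum_add, e3, hs] at e6
  refine ⟨?_, ?_, fun a ha => hA a (Multiset.mem_of_mem_filter ha)⟩
  · omega
  · omega

/-- Sum of class sizes. -/
theorem sum_mult (U : Finset ℕ) (𝒮 : Finset (Multiset ℕ)) :
    ∑ C ∈ 𝒮.image (rv U), (𝒮.filter fun R => rv U R = C).card = 𝒮.card := by
  classical
  exact (card_eq_sum_card_image (rv U) 𝒮).symm

/-- The union of the supports. -/
def supp (𝒮 : Finset (Multiset ℕ)) : Finset ℕ := 𝒮.biUnion Multiset.toFinset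

theorem mem_supp {𝒮 : Finset (Multiset ℕ)} {a : ℕ} : a ∈ supp 𝒮 ↔ ∃ R ∈ 𝒮, a ∈ R := by
  simp [supp]

/-- The core alternative for families of multisets, with the covering bound. -/
theorem core' {𝒮 : Finset (Multiset ℕ)} (j : ℕ) (hj : ∀ R ∈ 𝒮, R.card ≤ j) {U : Finset ℕ}
    (hU : U.Nonempty) (hUS : U ⊆ supp 𝒮) :
    U.card ≤ j * rk (Df 𝒮) U ∨
      ((∀ C ∈ 𝒮.image (rv U), 0 < ∑ u, C u) ∧ rk (Df 𝒮) U + 1 = (𝒮.image (rv U)).card ∧
        U.card ≤ ∑ C ∈ 𝒮.image (rv U), ∑ u, C u) := by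
  classical
  have hcov : ∀ u : U, ∃ C ∈ 𝒮.image (rv U), C u ≠ 0 := by
    intro u
    obtain ⟨R, hR, hu⟩ := mem_supp.1 (hUS u.2)
    refine ⟨rv U R, mem_image_of_mem _ hR, ?_⟩
    simp only [rv]
    exact Multiset.count_ne_zero.2 hu
  have hne : (𝒮.image (rv U)).Nonempty := by
    obtain ⟨u, hu⟩ := hU
    obtain ⟨C, hC, -⟩ := hcov ⟨u, hu⟩
    exact ⟨C, hC⟩
  have hrk : rk (Df 𝒮) U = Module.finrank ℚ (dspan (𝒮.image (rv U))) := by
    rw [dspan_eq]; rfl
  rcases core (𝒮.image (rv U)) hne j (by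
    intro C hC
    obtain ⟨R, hR, rfl⟩ := mem_image.1 hC
    exact (sum_rv_le U R).trans (hj R hR)) hcov with h | ⟨h1, h2⟩
  · left
    rw [hrk]
    simpa using h
  · right
    refine ⟨?_, by rw [hrk]; exact h2, ?_⟩
    · intro C hC
      have h3 := h1.ne_zero ⟨C, hC⟩
      by_contra h4
      apply h3
      have h5 : ∀ u, C u = 0 := by
        intro u
        have := Finset.sum_eq_zero_iff.1 (Nat.le_zero.1 (not_lt.1 h4)) u (mem_univ u)
        exact this
      funext u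
      simp [qv, h5]
    · have h6 : (univ : Finset U) ⊆ (𝒮.image (rv U)).biUnion
          (fun C => univ.filter fun u => C u ≠ 0) := by
        intro u _
        obtain ⟨C, hC, hCu⟩ := hcov u
        rw [mem_biUnion]
        exact ⟨C, hC, by simpa using hCu⟩
      calc U.card = (univ : Finset U).card := by simp
        _ ≤ _ := card_le_card h6
        _ ≤ _ := card_biUnion_le
        _ ≤ _ := sum_le_sum (fun C _ => supp_card_le C)

/-- Lemma C: more than the allowed number of representations gives large rank. -/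
theorem lemC {A : Set ℕ} {γ : ℝ} {j n : ℕ} (hγ : 0 < γ) (hjγ : j * γ < 1)
    {𝒮 : Finset (Multiset ℕ)} (h𝒮 : ∀ R ∈ 𝒮, R ∈ reps A j n)
    (hK : ∀ i < j, KP A γ i) (hbig : 1 < (𝒮.card : ℝ) * (1 - j * γ)) {U : Finset ℕ}
    (hU : U.Nonempty) (hUS : U ⊆ supp 𝒮) : γ * U.card < rk (Df 𝒮) U := by
  classical
  rcases core' j (fun R hR => (h𝒮 R hR).1.le) hU hUS with h | ⟨hpos, hr, hcard⟩
  · have h1 : 0 < U.card := card_pos.2 hU
    have h2 : 0 < rk (Df 𝒮) U := by
      rcases Nat.eq_zero_or_pos (rk (Df 𝒮) U) with h0 | h0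
      · rw [h0] at h; omega
      · exact h0
    have h3 : (U.card : ℝ) ≤ j * rk (Df 𝒮) U := by exact_mod_cast h
    have h4 : (0 : ℝ) < rk (Df 𝒮) U := by exact_mod_cast h2
    nlinarith
  · set I := 𝒮.image (rv U) with hI
    have h1 : ∀ C ∈ I, ((𝒮.filter fun R => rv U R = C).card : ℝ) * (1 - j * γ) ≤
        1 - γ * ((∑ u, C u : ℕ) : ℝ) := by
      intro C hC
      have hw := hpos C hC
      have hwj : ∑ u, C u ≤ j := by
        obtain ⟨R, hR, rfl⟩ := mem_image.1 hC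
        exact (sum_rv_le U R).trans (h𝒮 R hR).1.le
      have h2 := mult_bound h𝒮 U (hK (j - ∑ u, C u) (by omega)) hC
      have hm : 1 ≤ (𝒮.filter fun R => rv U R = C).card := by
        obtain ⟨R, hR, hRC⟩ := mem_image.1 hC
        exact card_pos.2 ⟨R, mem_filter.2 ⟨hR, hRC⟩⟩
      rw [Nat.cast_sub hwj] at h2
      have hm' : (1 : ℝ) ≤ ((𝒮.filter fun R => rv U R = C).card : ℝ) := by exact_mod_cast hm
      have hw' : (0 : ℝ) < ((∑ u, C u : ℕ) : ℝ) := by exact_mod_cast hw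
      have h3 : 0 ≤ (((𝒮.filter fun R => rv U R = C).card : ℝ) - 1) *
          (((∑ u, C u : ℕ) : ℝ) * γ) := by
        apply mul_nonneg (by linarith) (by positivity)
      nlinarith
    have h2 := sum_le_sum h1
    rw [← sum_mul, sum_sub_distrib, ← mul_sum, sum_const, nsmul_eq_mul, mul_one] at h2
    have h3 : (∑ C ∈ I, ((𝒮.filter fun R => rv U R = C).card : ℝ)) = 𝒮.card := by
      exact_mod_cast sum_mult U 𝒮
    rw [h3] at h2
    have h4 : (rk (Df 𝒮) U : ℝ) + 1 = I.card := by exact_mod_cast hr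
    have h5 : (U.card : ℝ) ≤ ∑ C ∈ I, ((∑ u, C u : ℕ) : ℝ) := by exact_mod_cast hcard
    nlinarith

end Pool.Agent.H65.BHG
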